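import Mathlib
import Pool.Agent.H160R2.HF.Defs

/-!
# Bridgeless graphs and integer flows
-/

set_option autoImplicit false
set_option linter.unusedSectionVars false

namespace Pool.Agent.TH60.HE
open Finset Pool.Agent.H160R2.HF Pool.Agent.H160R2.HF.OrGraph

variable {V E : Type*} [Fintype V] [Fintype E] [DecidableEq V] [DecidableEq E]

/-- the net outflow at the vertex `w` -/
def net (G : OrGraph V E) (φ : E → ℤ) (w : V) : ℤ :=
  ∑ e, ((if G.t e = w then φ e else 0) - (if G.h e = w then φ e else 0))

lemma isFlow_iff (G : OrGraph V E) (φ : E → ℤ) : G.IsFlow φ ↔ ∀ w, net G φ w = 0 := by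
  unfold OrGraph.IsFlow net
  refine forall_congr' fun w => ?_
  rw [Finset.sum_filter, Finset.sum_filter, Finset.sum_sub_distrib, sub_eq_zero]

lemma net_add (G : OrGraph V E) (φ ψ : E → ℤ) (w : V) :
    net G (fun e => φ e + ψ e) w = net G φ w + net G ψ w := by
  unfold net
  rw [← Finset.sum_add_distrib]
  refine Finset.sum_congr rfl fun e _ => ?_
  split_ifs <;> ring

lemma net_single (G : OrGraph V E) (e₀ : E) (c : ℤ) (w : V) :
    net G (fun e => if e = e₀ then c else 0) w =
      (if G.t e₀ = w then c else 0) - (if G.h e₀ = w then c else 0) := by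
  unfold net
  rw [Finset.sum_eq_single e₀]
  · simp
  · intro e _ he
    simp [he]
  · intro h
    exact absurd (Finset.mem_univ _) h

/-- a path in the graph `(V, F)` gives a unit flow along it -/
lemma exists_path (G : OrGraph V E) (F : Finset E) {u v : V} (p : (G.sub F).Walk u v) :
    ∃ φ : E → ℤ, (∀ e, e ∉ F → φ e = 0) ∧
      ∀ w, net G φ w = (if u = w then 1 else 0) - (if v = w then 1 else 0) := by
  induction p with
  | nil => exact ⟨fun _ => 0, fun _ _ => rfl, fun w => by simp [net]⟩
  | cons h p ih =>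
    rename_i a b c
    obtain ⟨φ, h1, h2⟩ := ih
    unfold OrGraph.sub at h
    rw [SimpleGraph.fromRel_adj] at h
    obtain ⟨-, ⟨e, he, h3, h4⟩ | ⟨e, he, h3, h4⟩⟩ := h
    · refine ⟨fun x => (if x = e then 1 else 0) + φ x, ?_, ?_⟩
      · intro x hx
        change (if x = e then 1 else 0) + φ x = 0
        rw [h1 x hx, if_neg (by rintro rfl; exact hx he), add_zero]
      · intro w
        rw [net_add, net_single, h2, h3, h4]
        ring
    · refine ⟨fun x => (if x = e then (-1) else 0) + φ x, ?_, ?_⟩
      · intro x hx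
        change (if x = e then (-1) else 0) + φ x = 0
        rw [h1 x hx, if_neg (by rintro rfl; exact hx he), add_zero]
      · intro w
        rw [net_add, net_single, h2, h3, h4]
        split_ifs <;> ring

/-- every edge of a bridgeless graph has value one in some flow -/
lemma exists_flow (G : OrGraph V E) (hG : G.Bridgeless) (e : E) :
    ∃ φ : E → ℤ, G.IsFlow φ ∧ φ e = 1 := by
  obtain ⟨p⟩ := (hG e).symm
  obtain ⟨φ, h1, h2⟩ := exists_path G _ p
  refine ⟨fun x => (if x = e then 1 else 0) + φ x, ?_, ?_⟩
  · rw [isFlow_iff]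
    intro w
    rw [net_add, net_single, h2]
    ring
  · simp [h1 e (by simp)]

/-- a graph in which every edge has a nonzero value in some flow is bridgeless -/
lemma bridgeless_of_flow (G : OrGraph V E)
    (hG : ∀ e, ∃ φ : E → ℤ, G.IsFlow φ ∧ φ e ≠ 0) : G.Bridgeless := by
  classical
  intro e
  by_contra hcon
  obtain ⟨φ, h1, h2⟩ := hG e
  rw [isFlow_iff] at h1
  have h3 : ∑ w with (G.sub (univ.erase e)).Reachable (G.t e) w, net G φ w = 0 :=
    Finset.sum_eq_zero fun w _ => h1 w
  unfold net at h3
  rw [Finset.sum_comm] at h3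
  rw [Finset.sum_eq_single e] at h3
  · rw [Finset.sum_sub_distrib, Finset.sum_ite_eq, Finset.sum_ite_eq, if_pos, if_neg, sub_zero] at h3
    · exact h2 h3
    · simpa using hcon
    · simp
  · intro x _ hx
    rw [Finset.sum_sub_distrib, Finset.sum_ite_eq, Finset.sum_ite_eq]
    have h4 : (G.sub (univ.erase e)).Reachable (G.t e) (G.t x) ↔
        (G.sub (univ.erase e)).Reachable (G.t e) (G.h x) := by
      by_cases hl : G.t x = G.h x
      · rw [hl]
      have h5 : (G.sub (univ.erase e)).Adj (G.t x) (G.h x) := by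
        unfold OrGraph.sub
        rw [SimpleGraph.fromRel_adj]
        exact ⟨hl, Or.inl ⟨x, by simpa using hx, rfl, rfl⟩⟩
      exact ⟨fun h => h.trans h5.reachable, fun h => h.trans h5.symm.reachable⟩
    simp only [mem_filter, mem_univ, true_and]
    by_cases h6 : (G.sub (univ.erase e)).Reachable (G.t e) (G.t x)
    · rw [if_pos h6, if_pos (h4.1 h6), sub_self]
    · rw [if_neg h6, if_neg (fun h => h6 (h4.2 h)), sub_self]
  · intro h
    exact absurd (Finset.mem_univ _) h

end Pool.Agent.TH60.HE
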