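import Mathlib
import Pool.Agent.TH60.HE.Flow

/-!
# Edge cuts with two edges
-/

set_option autoImplicit false
set_option linter.unusedSectionVars false

namespace Pool.Agent.TH60.HE
open Finset Pool.Agent.H160R2.HF Pool.Agent.H160R2.HF.OrGraph

variable {V E : Type*} [Fintype V] [Fintype E] [DecidableEq V] [DecidableEq E]

/-- `1` if the edge leaves `X`, `-1` if it enters `X` -/
def sg (G : OrGraph V E) (X : Finset V) (e : E) : ℤ := if G.t e ∈ X then 1 else -1

lemma sg_sq (G : OrGraph V E) (X : Finset V) (e : E) : sg G X e * sg G X e = 1 := by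
  unfold sg
  split_ifs <;> ring

lemma mem_cut_iff {G : OrGraph V E} {X : Finset V} {e₁ e₂ x : E} (hc : G.cut X = {e₁, e₂}) :
    (x = e₁ ∨ x = e₂) ↔ ¬ (G.t x ∈ X ↔ G.h x ∈ X) := by
  have h : x ∈ G.cut X ↔ x ∈ ({e₁, e₂} : Finset E) := by rw [hc]
  unfold OrGraph.cut at h
  rw [mem_filter, mem_insert, mem_singleton] at h
  rw [← h]
  simp

/-- the number of edges which are not loops -/
def nl (G : OrGraph V E) : ℕ := (univ.filter fun x => G.t x ≠ G.h x).card

/-- admissible values -/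
def Adm (a b : ℤ) : Prop := |a| ≤ 1 ∧ |b| ≤ 3 ∧ (a = 0 → 2 ≤ |b|)

lemma pair_iff {G : OrGraph V E} {a b : E → ℤ} :
    G.IsHalfFlowPair a b ↔ G.IsFlow a ∧ G.IsFlow b ∧ ∀ e, Adm (a e) (b e) := by
  constructor
  · rintro ⟨⟨h1, h2⟩, ⟨h3, h4⟩, h5⟩
    refine ⟨h2, h4, fun e => ⟨?_, ?_, h5 e⟩⟩
    · simpa using h1 e
    · have := h3 e
      norm_num at this
      exact this
  · rintro ⟨h1, h2, h3⟩
    refine ⟨⟨fun e => ?_, h1⟩, ⟨fun e => ?_, h2⟩, fun e => (h3 e).2.2⟩
    · simpa using (h3 e).1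
    · have := (h3 e).2.1
      norm_num
      exact this

lemma adm_neg {a b : ℤ} (h : Adm a b) : Adm (-a) (-b) := by
  unfold Adm at *
  rw [abs_neg, abs_neg, neg_eq_zero]
  exact h

lemma adm_sg (G : OrGraph V E) (X : Finset V) (e : E) {a b : ℤ} (h : Adm a b) :
    Adm (sg G X e * a) (sg G X e * b) := by
  unfold sg
  split_ifs
  · rw [one_mul, one_mul]
    exact h
  · rw [neg_one_mul, neg_one_mul]
    exact adm_neg h

end Pool.Agent.TH60.HE
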