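import Mathlib
import Pool.Agent.TH60.HE.Flow

/-!
# Substituting a graph minus an edge for the edges of the Petersen graph
-/

set_option autoImplicit false
set_option linter.unusedSectionVars false

namespace Pool.Agent.TH60.HE
open Finset Pool.Agent.H160R2.HF Pool.Agent.H160R2.HF.OrGraph

/-- The Petersen graph with an orientation: the edges `0, ..., 4` form the outer cycle
`0, 1, 2, 3, 4`, the edges `5, ..., 9` are the spokes from `i` to `5 + i` and the edges
`10, ..., 14` join `5 + i` to `5 + (i + 2)`, indices modulo five. -/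
def petersen : OrGraph (Fin 10) (Fin 15) where
  t := ![0, 1, 2, 3, 4, 0, 1, 2, 3, 4, 5, 6, 7, 8, 9]
  h := ![1, 2, 3, 4, 0, 5, 6, 7, 8, 9, 7, 8, 9, 5, 6]

variable {V E : Type*} [Fintype V] [Fintype E] [DecidableEq V] [DecidableEq E]

/-- The graph obtained from the Petersen graph by replacing each of its fifteen edges `f`, from `u`
to `v`, with a copy of the graph `G` in which the edge `e` is cut in two: the vertices are the
vertices of the Petersen graph and the pairs `(f, x)`, `x` a vertex of `G`; the edges are the pairs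
`(f, e')`, `e'` an edge of `G`, running like `e'` in the copy with index `f`, except that `(f, e)`
starts at `u`, and an edge `f` from the vertex `(f, t e)` to `v`. -/
def substitute (G : OrGraph V E) (e : E) : OrGraph (Fin 10 ⊕ (Fin 15 × V)) (Fin 15 ⊕ (Fin 15 × E))
    where
  t := Sum.elim (fun f => Sum.inr (f, G.t e))
    (fun x => if x.2 = e then Sum.inl (petersen.t x.1) else Sum.inr (x.1, G.t x.2))
  h := Sum.elim (fun f => Sum.inl (petersen.h f)) (fun x => Sum.inr (x.1, G.h x.2))

lemma net_inr (G : OrGraph V E) (e : E) (φ : Fin 15 ⊕ (Fin 15 × E) → ℤ) (f : Fin 15) (v : V) :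
    net (substitute G e) φ (Sum.inr (f, v)) =
      net G (fun x => φ (Sum.inr (f, x))) v +
        (if G.t e = v then φ (Sum.inl f) - φ (Sum.inr (f, e)) else 0) := by
  unfold net
  rw [Fintype.sum_sum_type, Fintype.sum_prod_type]
  have h1 : ∀ g : Fin 15, (∑ x : E, ((if (substitute G e).t (Sum.inr (g, x)) = Sum.inr (f, v) then
      φ (Sum.inr (g, x)) else 0) - (if (substitute G e).h (Sum.inr (g, x)) = Sum.inr (f, v) then
      φ (Sum.inr (g, x)) else 0))) =
      if g = f then ((∑ x : E, ((if G.t x = v then φ (Sum.inr (f, x)) else 0) -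
        (if G.h x = v then φ (Sum.inr (f, x)) else 0))) -
        (if G.t e = v then φ (Sum.inr (f, e)) else 0)) else 0 := by
    intro g
    by_cases hg : g = f
    · subst hg
      have h2 : (if G.t e = v then φ (Sum.inr (g, e)) else 0) =
          ∑ x : E, (if x = e then (if G.t e = v then φ (Sum.inr (g, e)) else 0) else 0) := by
        rw [Finset.sum_ite_eq' univ e, if_pos (Finset.mem_univ _)]
      rw [if_pos rfl, h2, ← Finset.sum_sub_distrib]
      refine Finset.sum_congr rfl fun x _ => ?_
      unfold substitute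
      by_cases hx : x = e
      · subst hx
        simp
      · simp [hx]
    · rw [if_neg hg]
      refine Finset.sum_eq_zero fun x _ => ?_
      unfold substitute
      by_cases hx : x = e <;> simp [hx, hg]
  rw [Finset.sum_congr rfl fun g _ => h1 g, Finset.sum_ite_eq' univ f, if_pos (Finset.mem_univ _)]
  have h3 : ∑ g : Fin 15, ((if (substitute G e).t (Sum.inl g) = Sum.inr (f, v) then
      φ (Sum.inl g) else 0) - (if (substitute G e).h (Sum.inl g) = Sum.inr (f, v) then
      φ (Sum.inl g) else 0)) = if G.t e = v then φ (Sum.inl f) else 0 := by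
    rw [Finset.sum_eq_single f]
    · unfold substitute
      simp
    · intro g _ hg
      unfold substitute
      simp [hg]
    · intro h
      exact absurd (Finset.mem_univ _) h
  rw [h3]
  split_ifs <;> ring

lemma net_inl (G : OrGraph V E) (e : E) (φ : Fin 15 ⊕ (Fin 15 × E) → ℤ) (u : Fin 10) :
    net (substitute G e) φ (Sum.inl u) =
      ∑ f, ((if petersen.t f = u then φ (Sum.inr (f, e)) else 0) -
        (if petersen.h f = u then φ (Sum.inl f) else 0)) := by
  unfold net
  rw [Fintype.sum_sum_type, Fintype.sum_prod_type, ← Finset.sum_add_distrib]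
  refine Finset.sum_congr rfl fun f _ => ?_
  rw [Finset.sum_eq_single e]
  · unfold substitute
    simp
    ring
  · intro x _ hx
    unfold substitute
    simp [hx]
  · intro h
    exact absurd (Finset.mem_univ _) h

lemma sum_net (G : OrGraph V E) (φ : E → ℤ) : ∑ v, net G φ v = 0 := by
  unfold net
  rw [Finset.sum_comm]
  refine Finset.sum_eq_zero fun e _ => ?_
  rw [Finset.sum_sub_distrib, Finset.sum_ite_eq, Finset.sum_ite_eq, if_pos (Finset.mem_univ _),
    if_pos (Finset.mem_univ _), sub_self]

/-- a flow of the substituted graph gives flows of the copies and of the Petersen graph -/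
lemma isFlow_sub_iff (G : OrGraph V E) (e : E) (φ : Fin 15 ⊕ (Fin 15 × E) → ℤ) :
    (substitute G e).IsFlow φ ↔ (∀ f, G.IsFlow (fun x => φ (Sum.inr (f, x)))) ∧
      (∀ f, φ (Sum.inl f) = φ (Sum.inr (f, e))) ∧ petersen.IsFlow (fun f => φ (Sum.inl f)) := by
  constructor
  · intro h
    rw [isFlow_iff] at h
    have h1 : ∀ f, φ (Sum.inl f) = φ (Sum.inr (f, e)) := by
      intro f
      have h2 : ∑ v, net (substitute G e) φ (Sum.inr (f, v)) = 0 :=
        Finset.sum_eq_zero fun v _ => h _
      rw [Finset.sum_congr rfl fun v _ => net_inr G e φ f v, Finset.sum_add_distrib, sum_net,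
        Finset.sum_ite_eq, if_pos (Finset.mem_univ _)] at h2
      linarith
    refine ⟨fun f => ?_, h1, ?_⟩
    · rw [isFlow_iff]
      intro v
      have h2 := h (Sum.inr (f, v))
      rw [net_inr, h1 f, sub_self] at h2
      simpa using h2
    · rw [isFlow_iff]
      intro u
      have h2 := h (Sum.inl u)
      rw [net_inl] at h2
      refine Eq.trans (Finset.sum_congr rfl fun f _ => ?_) h2
      simp only [h1 f]
  · rintro ⟨h1, h2, h3⟩
    rw [isFlow_iff]
    rw [isFlow_iff] at h3
    rintro (u | ⟨f, v⟩)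
    · rw [net_inl]
      refine Eq.trans (Finset.sum_congr rfl fun f _ => ?_) (h3 u)
      simp only [h2 f]
    · rw [net_inr, h2 f, sub_self]
      have h4 := (isFlow_iff _ _).1 (h1 f) v
      rw [h4]
      simp

lemma petersen_flow {π : Fin 15 → ℤ} (hπ : petersen.IsFlow π) :
    (π 0 + π 5 = π 4 ∧ π 1 + π 6 = π 0 ∧ π 2 + π 7 = π 1 ∧ π 3 + π 8 = π 2 ∧ π 4 + π 9 = π 3) ∧
    (π 10 = π 5 + π 13 ∧ π 11 = π 6 + π 14 ∧ π 12 = π 7 + π 10 ∧ π 13 = π 8 + π 11 ∧
      π 14 = π 9 + π 12) := by
  have key : ∀ (u : Fin 10) (a b : Finset (Fin 15)), univ.filter (fun f => petersen.t f = u) = a →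
      univ.filter (fun f => petersen.h f = u) = b → ∑ f ∈ a, π f = ∑ f ∈ b, π f := by
    rintro u a b rfl rfl
    exact hπ u
  have a0 := key 0 {0, 5} {4} (by decide) (by decide)
  have a1 := key 1 {1, 6} {0} (by decide) (by decide)
  have a2 := key 2 {2, 7} {1} (by decide) (by decide)
  have a3 := key 3 {3, 8} {2} (by decide) (by decide)
  have a4 := key 4 {4, 9} {3} (by decide) (by decide)
  have a5 := key 5 {10} {5, 13} (by decide) (by decide)
  have a6 := key 6 {11} {6, 14} (by decide) (by decide)
  have a7 := key 7 {12} {7, 10} (by decide) (by decide)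
  have a8 := key 8 {13} {8, 11} (by decide) (by decide)
  have a9 := key 9 {14} {9, 12} (by decide) (by decide)
  simp at a0 a1 a2 a3 a4 a5 a6 a7 a8 a9
  exact ⟨⟨a0, a1, a2, a3, a4⟩, a5, a6, a7, a8, a9⟩

lemma petersen_nowhere_zero : ∃ π : Fin 15 → ℤ, petersen.IsFlow π ∧ ∀ f, π f ≠ 0 := by
  refine ⟨![-1, 3, 2, -1, -4, -3, -4, 1, 3, 3, -2, -2, -1, 1, 2], ?_, by decide⟩
  unfold OrGraph.IsFlow
  decide

end Pool.Agent.TH60.HE
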