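import Mathlib
import Pool.Agent.TH60.HE.Sub
import Pool.Agent.TH60.HE.Cut2

/-!
# Contracting one edge of an edge cut with two edges
-/

set_option autoImplicit false
set_option linter.unusedSectionVars false

namespace Pool.Agent.TH60.HE
open Finset Pool.Agent.H160R2.HF Pool.Agent.H160R2.HF.OrGraph

variable {V E : Type*} [Fintype V] [Fintype E] [DecidableEq V] [DecidableEq E]

/-- the ends of the edge `e` are identified, both are now the vertex `t e` -/
def merge (G : OrGraph V E) (e : E) : OrGraph V E where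
  t x := if G.t x = G.h e then G.t e else G.t x
  h x := if G.h x = G.h e then G.t e else G.h x

lemma net_merge (G : OrGraph V E) (e : E) (φ : E → ℤ) {v : V} (h1 : v ≠ G.t e) (h2 : v ≠ G.h e) :
    net (merge G e) φ v = net G φ v := by
  unfold net merge
  refine Finset.sum_congr rfl fun x _ => ?_
  congr 1
  · by_cases h : G.t x = G.h e
    · simp [h, h1.symm, h2.symm]
    · simp [h]
  · by_cases h : G.h x = G.h e
    · simp [h, h1.symm, h2.symm]
    · simp [h]

lemma merge_flow {G : OrGraph V E} (e : E) {φ : E → ℤ} (h : G.IsFlow φ) :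
    (merge G e).IsFlow φ := by
  rw [isFlow_iff] at h ⊢
  have key : ∀ v, v ≠ G.t e → net (merge G e) φ v = 0 := by
    intro v hv
    by_cases h2 : v = G.h e
    · subst h2
      unfold net merge
      refine Finset.sum_eq_zero fun x _ => ?_
      have h3 : (if G.t x = G.h e then G.t e else G.t x) ≠ G.h e := by
        split_ifs with h4
        · exact hv.symm
        · exact h4
      have h5 : (if G.h x = G.h e then G.t e else G.h x) ≠ G.h e := by
        split_ifs with h4
        · exact hv.symm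
        · exact h4
      simp only [if_neg h3, if_neg h5, sub_zero]
    · rw [net_merge G e φ hv h2, h v]
  intro v
  by_cases hv : v = G.t e
  · subst hv
    have h1 := sum_net (merge G e) φ
    rwa [Finset.sum_eq_single (G.t e) (fun b _ hb => key b hb)
      (fun h => absurd (Finset.mem_univ _) h)] at h1
  · exact key v hv

lemma merge_bridgeless {G : OrGraph V E} (hG : G.Bridgeless) (e : E) :
    (merge G e).Bridgeless := by
  apply bridgeless_of_flow
  intro x
  obtain ⟨φ, h1, h2⟩ := exists_flow G hG x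
  exact ⟨φ, merge_flow e h1, by rw [h2]; exact one_ne_zero⟩

lemma nl_merge {G : OrGraph V E} {e : E} (he : G.t e ≠ G.h e) : nl (merge G e) < nl G := by
  unfold nl
  apply Finset.card_lt_card
  rw [Finset.ssubset_iff_of_subset]
  · refine ⟨e, ?_, ?_⟩
    · rw [mem_filter]
      exact ⟨mem_univ _, he⟩
    · rw [mem_filter, not_and, not_not]
      intro _
      unfold merge
      simp [he]
  · intro x hx
    rw [mem_filter] at hx ⊢
    refine ⟨mem_univ _, fun h => hx.2 ?_⟩
    unfold merge
    simp only [h]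

/-- the net outflow of a set with two boundary edges -/
lemma sum_net_cut {G : OrGraph V E} {X : Finset V} {e₁ e₂ : E} (hc : G.cut X = {e₁, e₂})
    (hne : e₁ ≠ e₂) (φ : E → ℤ) :
    ∑ v ∈ X, net G φ v = sg G X e₁ * φ e₁ + sg G X e₂ * φ e₂ := by
  unfold net
  rw [Finset.sum_comm]
  have key : ∀ x, ∑ v ∈ X, ((if G.t x = v then φ x else 0) - (if G.h x = v then φ x else 0)) =
      (if x = e₁ then sg G X e₁ * φ e₁ else 0) + (if x = e₂ then sg G X e₂ * φ e₂ else 0) := by
    intro x
    rw [Finset.sum_sub_distrib, Finset.sum_ite_eq, Finset.sum_ite_eq]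
    have h1 := mem_cut_iff (x := x) hc
    by_cases hx1 : x = e₁
    · subst hx1
      rw [if_pos rfl, if_neg hne]
      have h2 := h1.1 (Or.inl rfl)
      unfold sg
      by_cases ht : G.t x ∈ X
      · have hh : G.h x ∉ X := fun h => h2 ⟨fun _ => h, fun _ => ht⟩
        simp [ht, hh]
      · have hh : G.h x ∈ X := by
          by_contra h
          exact h2 ⟨fun h' => absurd h' ht, fun h' => absurd h' h⟩
        simp [ht, hh]
    · by_cases hx2 : x = e₂
      · subst hx2
        rw [if_neg hx1, if_pos rfl]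
        have h2 := h1.1 (Or.inr rfl)
        unfold sg
        by_cases ht : G.t x ∈ X
        · have hh : G.h x ∉ X := fun h => h2 ⟨fun _ => h, fun _ => ht⟩
          simp [ht, hh]
        · have hh : G.h x ∈ X := by
            by_contra h
            exact h2 ⟨fun h' => absurd h' ht, fun h' => absurd h' h⟩
          simp [ht, hh]
      · rw [if_neg hx1, if_neg hx2]
        have h3 : (G.t x ∈ X ↔ G.h x ∈ X) := by
          by_contra h
          rcases h1.2 h with h | h
          · exact hx1 h
          · exact hx2 h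
        by_cases ht : G.t x ∈ X
        · simp [ht, h3.1 ht]
        · have hh : G.h x ∉ X := fun h => ht (h3.2 h)
          simp [ht, hh]
  rw [Finset.sum_congr rfl fun x _ => key x, Finset.sum_add_distrib, Finset.sum_ite_eq',
    Finset.sum_ite_eq', if_pos (mem_univ _), if_pos (mem_univ _)]

/-- the value on the contracted edge -/
def ext (G : OrGraph V E) (X : Finset V) (e₁ e₂ : E) (φ : E → ℤ) (x : E) : ℤ :=
  if x = e₁ then -(sg G X e₁ * (sg G X e₂ * φ e₂)) else φ x

lemma ext_flow {G : OrGraph V E} {X : Finset V} {e₁ e₂ : E} (hc : G.cut X = {e₁, e₂})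
    (hne : e₁ ≠ e₂) {φ : E → ℤ} (h : (merge G e₁).IsFlow φ) :
    G.IsFlow (ext G X e₁ e₂ φ) := by
  rw [isFlow_iff] at h ⊢
  have key : ∀ v, v ≠ G.t e₁ → v ≠ G.h e₁ → net G (ext G X e₁ e₂ φ) v = 0 := by
    intro v h1 h2
    rw [← h v, net_merge G e₁ φ h1 h2]
    unfold net
    refine Finset.sum_congr rfl fun x _ => ?_
    by_cases hx : x = e₁
    · subst hx
      simp only [if_neg h1.symm, if_neg h2.symm]
    · unfold ext
      rw [if_neg hx]
  have hcut : ¬ (G.t e₁ ∈ X ↔ G.h e₁ ∈ X) := (mem_cut_iff hc).1 (Or.inl rfl)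
  have hX : ∑ v ∈ X, net G (ext G X e₁ e₂ φ) v = 0 := by
    rw [sum_net_cut hc hne]
    unfold ext
    rw [if_pos rfl, if_neg hne.symm, mul_neg, ← mul_assoc, sg_sq]
    ring
  have hXc : ∑ v ∈ Xᶜ, net G (ext G X e₁ e₂ φ) v = 0 := by
    have h1 := Finset.sum_add_sum_compl X (net G (ext G X e₁ e₂ φ))
    rw [sum_net, hX, zero_add] at h1
    exact h1
  have single : ∀ (Y : Finset V) (a b : V), (∀ v, v ≠ a → v ≠ b →
      net G (ext G X e₁ e₂ φ) v = 0) → ∑ v ∈ Y, net G (ext G X e₁ e₂ φ) v = 0 → a ∈ Y → b ∉ Y →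
      net G (ext G X e₁ e₂ φ) a = 0 := by
    intro Y a b h1 h2 h3 h4
    rw [Finset.sum_eq_single a] at h2
    · exact h2
    · intro v hv hva
      exact h1 v hva (fun h => h4 (h ▸ hv))
    · intro h
      exact absurd h3 h
  have key' : ∀ v, v ≠ G.h e₁ → v ≠ G.t e₁ → net G (ext G X e₁ e₂ φ) v = 0 :=
    fun v h1 h2 => key v h2 h1
  by_cases ht : G.t e₁ ∈ X
  · have hh : G.h e₁ ∉ X := fun h => hcut ⟨fun _ => h, fun _ => ht⟩
    intro v
    by_cases h1 : v = G.t e₁
    · rw [h1]
      exact single X _ _ key hX ht hh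
    · by_cases h2 : v = G.h e₁
      · rw [h2]
        exact single Xᶜ _ _ key' hXc (Finset.mem_compl.2 hh)
          (fun h => (Finset.mem_compl.1 h) ht)
      · exact key v h1 h2
  · have hh : G.h e₁ ∈ X := by
      by_contra h
      exact hcut ⟨fun h' => absurd h' ht, fun h' => absurd h' h⟩
    intro v
    by_cases h1 : v = G.t e₁
    · rw [h1]
      exact single Xᶜ _ _ key hXc (Finset.mem_compl.2 ht)
        (fun h => (Finset.mem_compl.1 h) hh)
    · by_cases h2 : v = G.h e₁
      · rw [h2]
        exact single X _ _ key' hX hh ht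
      · exact key v h1 h2

/-- it is enough to find pairs in the graphs without edge cuts with two edges -/
theorem pair_of
    (H : ∀ K : OrGraph V E, K.Bridgeless → (∀ X, (K.cut X).card ≠ 2) →
      ∃ φ₂ φ₄ : E → ℤ, K.IsHalfFlowPair φ₂ φ₄)
    (n : ℕ) : ∀ G : OrGraph V E, nl G = n → G.Bridgeless →
      ∃ φ₂ φ₄ : E → ℤ, G.IsHalfFlowPair φ₂ φ₄ := by
  induction n using Nat.strong_induction_on with
  | _ n ih =>
    intro G hn hG
    by_cases h2 : ∀ X, (G.cut X).card ≠ 2
    · exact H G hG h2
    · push Not at h2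
      obtain ⟨X, hX⟩ := h2
      obtain ⟨e₁, e₂, hne, hc⟩ := Finset.card_eq_two.1 hX
      have hl : G.t e₁ ≠ G.h e₁ := by
        intro h
        have h3 := (mem_cut_iff hc).1 (Or.inl rfl : e₁ = e₁ ∨ e₁ = e₂)
        rw [h] at h3
        exact h3 Iff.rfl
      obtain ⟨a, b, hab⟩ := ih _ (hn ▸ nl_merge hl) (merge G e₁) rfl (merge_bridgeless hG e₁)
      rw [pair_iff] at hab
      refine ⟨ext G X e₁ e₂ a, ext G X e₁ e₂ b, ?_⟩
      rw [pair_iff]
      refine ⟨ext_flow hc hne hab.1, ext_flow hc hne hab.2.1, fun x => ?_⟩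
      unfold ext
      split_ifs
      · exact adm_neg (adm_sg _ _ _ (adm_sg _ _ _ (hab.2.2 e₂)))
      · exact hab.2.2 x

end Pool.Agent.TH60.HE
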