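import Mathlib
import Pool.Agent.TH60.HE.Sub

/-!
# The substituted graph of a cubic graph is cubic
-/

set_option autoImplicit false
set_option linter.unusedSectionVars false

namespace Pool.Agent.TH60.HE
open Finset Pool.Agent.H160R2.HF Pool.Agent.H160R2.HF.OrGraph

variable {V E : Type*} [Fintype V] [Fintype E] [DecidableEq V] [DecidableEq E]

lemma deg_eq (G : OrGraph V E) (v : V) :
    G.deg univ v = ∑ x, ((if G.t x = v then 1 else 0) + (if G.h x = v then 1 else 0)) := by
  unfold OrGraph.deg
  rw [Finset.card_filter, Finset.card_filter, Finset.sum_add_distrib]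

lemma deg_inr (G : OrGraph V E) (e : E) (f : Fin 15) (v : V) :
    (substitute G e).deg univ (Sum.inr (f, v)) = G.deg univ v := by
  rw [deg_eq, deg_eq, Fintype.sum_sum_type, Fintype.sum_prod_type]
  have h1 : ∀ g : Fin 15, (∑ x : E, ((if (substitute G e).t (Sum.inr (g, x)) = Sum.inr (f, v) then
      1 else 0) + (if (substitute G e).h (Sum.inr (g, x)) = Sum.inr (f, v) then
      1 else 0))) =
      if g = f then (∑ x : E, ((if x = e then 0 else if G.t x = v then 1 else 0) +
        (if G.h x = v then 1 else 0))) else 0 := by
    intro g
    by_cases hg : g = f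
    · subst hg
      rw [if_pos rfl]
      refine Finset.sum_congr rfl fun x _ => ?_
      unfold substitute
      by_cases hx : x = e
      · subst hx
        simp
      · simp [hx]
    · rw [if_neg hg]
      refine Finset.sum_eq_zero fun x _ => ?_
      unfold substitute
      by_cases hx : x = e <;> simp [hx, hg]
  rw [Finset.sum_congr rfl fun g _ => h1 g, Finset.sum_ite_eq' univ f, if_pos (Finset.mem_univ _)]
  have h3 : ∑ g : Fin 15, ((if (substitute G e).t (Sum.inl g) = Sum.inr (f, v) then
      1 else 0) + (if (substitute G e).h (Sum.inl g) = Sum.inr (f, v) then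
      1 else 0)) = if G.t e = v then 1 else 0 := by
    rw [Finset.sum_eq_single f]
    · unfold substitute
      simp
    · intro g _ hg
      unfold substitute
      simp [hg]
    · intro h
      exact absurd (Finset.mem_univ _) h
  rw [h3]
  have h4 : (if G.t e = v then 1 else 0) =
      ∑ x : E, (if x = e then (if G.t x = v then 1 else 0) else 0) := by
    rw [Finset.sum_ite_eq' univ e, if_pos (Finset.mem_univ _)]
  rw [h4, ← Finset.sum_add_distrib]
  refine Finset.sum_congr rfl fun x _ => ?_
  split_ifs <;> rfl

lemma deg_inl (G : OrGraph V E) (e : E) (u : Fin 10) :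
    (substitute G e).deg univ (Sum.inl u) = 3 := by
  have h0 : petersen.deg univ u = 3 := by
    revert u
    decide
  rw [← h0, deg_eq, deg_eq, Fintype.sum_sum_type, Fintype.sum_prod_type, ← Finset.sum_add_distrib]
  refine Finset.sum_congr rfl fun f _ => ?_
  rw [Finset.sum_eq_single e]
  · unfold substitute
    simp
    ring
  · intro x _ hx
    unfold substitute
    simp [hx]
  · intro h
    exact absurd (Finset.mem_univ _) h

/-- the substituted graph of a cubic graph is cubic -/
theorem substitute_cubic (G : OrGraph V E) (hG : G.Cubic) (e : E) : (substitute G e).Cubic := by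
  rintro (u | ⟨f, v⟩)
  · exact deg_inl G e u
  · rw [deg_inr]
    exact hG v

end Pool.Agent.TH60.HE
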