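import Mathlib

/-!
# The values of a `1/2`-flow-pair on the Petersen graph: a finite search
-/

set_option autoImplicit false
set_option maxRecDepth 100000

namespace Pool.Agent.TH60.HE

/-- the possible states of an edge: whether the 2-flow vanishes, and the value of the 4-flow -/
def st : List (Bool × ℤ) := [(true, -3), (true, -2), (true, 2), (true, 3), (false, -3), (false, -2),
  (false, -1), (false, 0), (false, 1), (false, 2), (false, 3)]

def ok (m : Bool) (b : ℤ) : Bool := Nat.ble b.natAbs 3 && (!m || Nat.ble 2 b.natAbs)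

def ex (m : Bool) (k : ℕ) : List (Bool × ℤ) → Bool
  | [] => false
  | x :: l => bif (x.1 == m && Nat.beq x.2.natAbs k) then true else ex m k l

def allTypes (l : List (Bool × ℤ)) : Bool :=
  ex true 2 l && ex true 3 l && ex false 0 l && ex false 1 l && ex false 2 l && ex false 3 l

/-- guarded continuation -/
def gd (c : Bool) (r : Bool) : Bool := bif c then r else true

/-- the third of three booleans of which exactly one is true -/
def nr (x y : Bool) : Bool := !(x || y)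

def check3 (m0 m1 m2 m3 m4 m5 m6 m7 m8 m9 m10 m12 m14 m11 m13 : Bool)
    (b0 b1 b2 b3 b4 b5 b6 b7 b8 b9 b10 b12 b14 b11 b13 : ℤ) : Bool :=
  allTypes [(m0, b0), (m1, b1), (m2, b2), (m3, b3), (m4, b4), (m5, b5), (m6, b6), (m7, b7),
    (m8, b8), (m9, b9), (m10, b10), (m11, b11), (m12, b12), (m13, b13), (m14, b14)]

def check2 (m0 m1 m2 m3 m4 m5 m6 m7 m8 m9 : Bool) (b0 b1 b2 b3 b4 b5 b6 b7 b8 b9 : ℤ) : Bool :=
  st.all fun x10 =>
  gd (!(x10.1 && m7) && ok (nr x10.1 m7) (b7 + x10.2)) <|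
  (fun (m12 : Bool) (b12 : ℤ) =>
    gd (!(m12 && m9) && ok (nr m12 m9) (b9 + b12)) <|
    (fun (m14 : Bool) (b14 : ℤ) =>
      gd (!(m14 && m6) && ok (nr m14 m6) (b6 + b14)) <|
      (fun (m11 : Bool) (b11 : ℤ) =>
        gd (!(m11 && m8) && ok (nr m11 m8) (b8 + b11)) <|
        (fun (m13 : Bool) (b13 : ℤ) =>
          gd (!(m13 && m5) && (nr m13 m5 == x10.1) && (b5 + b13 == x10.2)) <|
          check3 m0 m1 m2 m3 m4 m5 m6 m7 m8 m9 x10.1 m12 m14 m11 m13
            b0 b1 b2 b3 b4 b5 b6 b7 b8 b9 x10.2 b12 b14 b11 b13)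
        (nr m11 m8) (b8 + b11))
      (nr m14 m6) (b6 + b14))
    (nr m12 m9) (b9 + b12))
  (nr x10.1 m7) (b7 + x10.2)

def check : Bool :=
  st.all fun x4 => st.all fun x0 =>
  gd (!(x0.1 && x4.1) && ok (nr x0.1 x4.1) (x4.2 - x0.2)) <|
  st.all fun x1 =>
  gd (!(x1.1 && x0.1) && ok (nr x1.1 x0.1) (x0.2 - x1.2)) <|
  st.all fun x2 =>
  gd (!(x2.1 && x1.1) && ok (nr x2.1 x1.1) (x1.2 - x2.2)) <|
  st.all fun x3 =>
  gd (!(x3.1 && x2.1) && ok (nr x3.1 x2.1) (x2.2 - x3.2)) <|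
  gd (!(x4.1 && x3.1) && ok (nr x4.1 x3.1) (x3.2 - x4.2)) <|
  check2 x0.1 x1.1 x2.1 x3.1 x4.1 (nr x0.1 x4.1) (nr x1.1 x0.1) (nr x2.1 x1.1) (nr x3.1 x2.1)
    (nr x4.1 x3.1) x0.2 x1.2 x2.2 x3.2 x4.2 (x4.2 - x0.2) (x0.2 - x1.2) (x1.2 - x2.2)
    (x2.2 - x3.2) (x3.2 - x4.2)

theorem check_eq : check = true := by decide +kernel

end Pool.Agent.TH60.HE
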