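import Mathlib
import Pool.Agent.TH60.HE.Check
import Pool.Agent.TH60.HE.Sub

/-!
# Every `1/2`-flow-pair of the Petersen graph has edges of all types
-/

set_option autoImplicit false

namespace Pool.Agent.TH60.HE
open Finset Pool.Agent.H160R2.HF Pool.Agent.H160R2.HF.OrGraph

lemma mem_st {m : Bool} {b : ℤ} (h : ok m b = true) : (m, b) ∈ st := by
  unfold ok at h
  rw [Bool.and_eq_true] at h
  have h1 : b.natAbs ≤ 3 := Nat.le_of_ble_eq_true h.1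
  have h2 : -3 ≤ b ∧ b ≤ 3 := by omega
  obtain ⟨h3, h4⟩ := h2
  revert h
  cases m <;> interval_cases b <;> simp [st]

lemma gd_true {c r : Bool} (h : gd c r = true) (hc : c = true) : r = true := by
  subst hc
  exact h

lemma ex_true {m : Bool} {k : ℕ} {l : List (Bool × ℤ)} (h : ex m k l = true) :
    ∃ x ∈ l, x.1 = m ∧ x.2.natAbs = k := by
  induction l with
  | nil => exact absurd h Bool.false_ne_true
  | cons x l ih =>
    unfold ex at h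
    cases hc : (x.1 == m && Nat.beq x.2.natAbs k) with
    | true =>
      rw [Bool.and_eq_true] at hc
      exact ⟨x, List.mem_cons_self, by simpa using hc.1, Nat.eq_of_beq_eq_true hc.2⟩
    | false =>
      rw [hc] at h
      obtain ⟨y, hy, hy'⟩ := ih h
      exact ⟨y, List.mem_cons_of_mem _ hy, hy'⟩

theorem allTypes_of (m : Fin 15 → Bool) (b : Fin 15 → ℤ) (hok : ∀ f, ok (m f) (b f) = true)
    (e5 : b 4 - b 0 = b 5) (e6 : b 0 - b 1 = b 6) (e7 : b 1 - b 2 = b 7) (e8 : b 2 - b 3 = b 8)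
    (e9 : b 3 - b 4 = b 9) (e12 : b 7 + b 10 = b 12) (e14 : b 9 + b 12 = b 14)
    (e11 : b 6 + b 14 = b 11) (e13 : b 8 + b 11 = b 13) (e10 : b 5 + b 13 = b 10)
    (n5 : nr (m 0) (m 4) = m 5 ∧ (m 0 && m 4) = false)
    (n6 : nr (m 1) (m 0) = m 6 ∧ (m 1 && m 0) = false)
    (n7 : nr (m 2) (m 1) = m 7 ∧ (m 2 && m 1) = false)
    (n8 : nr (m 3) (m 2) = m 8 ∧ (m 3 && m 2) = false)
    (n9 : nr (m 4) (m 3) = m 9 ∧ (m 4 && m 3) = false)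
    (n12 : nr (m 10) (m 7) = m 12 ∧ (m 10 && m 7) = false)
    (n14 : nr (m 12) (m 9) = m 14 ∧ (m 12 && m 9) = false)
    (n11 : nr (m 14) (m 6) = m 11 ∧ (m 14 && m 6) = false)
    (n13 : nr (m 11) (m 8) = m 13 ∧ (m 11 && m 8) = false)
    (n10 : nr (m 13) (m 5) = m 10 ∧ (m 13 && m 5) = false) :
    ∀ (μ : Bool) (k : ℕ), k ≤ 3 → (μ = true → 2 ≤ k) → ∃ f, m f = μ ∧ (b f).natAbs = k := by
  have h0 := check_eq
  unfold check at h0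
  have h1 := List.all_eq_true.1 h0 (m 4, b 4) (mem_st (hok 4))
  have h2 := List.all_eq_true.1 h1 (m 0, b 0) (mem_st (hok 0))
  have h3 := gd_true h2 (show (!(m 0 && m 4) && ok (nr (m 0) (m 4)) (b 4 - b 0)) = true by
    rw [n5.2, n5.1, e5, hok 5]; rfl)
  have h4 := List.all_eq_true.1 h3 (m 1, b 1) (mem_st (hok 1))
  have h5 := gd_true h4 (show (!(m 1 && m 0) && ok (nr (m 1) (m 0)) (b 0 - b 1)) = true by
    rw [n6.2, n6.1, e6, hok 6]; rfl)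
  have h6 := List.all_eq_true.1 h5 (m 2, b 2) (mem_st (hok 2))
  have h7 := gd_true h6 (show (!(m 2 && m 1) && ok (nr (m 2) (m 1)) (b 1 - b 2)) = true by
    rw [n7.2, n7.1, e7, hok 7]; rfl)
  have h8 := List.all_eq_true.1 h7 (m 3, b 3) (mem_st (hok 3))
  have h9 := gd_true h8 (show (!(m 3 && m 2) && ok (nr (m 3) (m 2)) (b 2 - b 3)) = true by
    rw [n8.2, n8.1, e8, hok 8]; rfl)
  have h10 := gd_true h9 (show (!(m 4 && m 3) && ok (nr (m 4) (m 3)) (b 3 - b 4)) = true by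
    rw [n9.2, n9.1, e9, hok 9]; rfl)
  change check2 (m 0) (m 1) (m 2) (m 3) (m 4) (nr (m 0) (m 4)) (nr (m 1) (m 0)) (nr (m 2) (m 1))
    (nr (m 3) (m 2)) (nr (m 4) (m 3)) (b 0) (b 1) (b 2) (b 3) (b 4) (b 4 - b 0) (b 0 - b 1)
    (b 1 - b 2) (b 2 - b 3) (b 3 - b 4) = true at h10
  rw [n5.1, n6.1, n7.1, n8.1, n9.1, e5, e6, e7, e8, e9] at h10
  unfold check2 at h10
  have h11 := List.all_eq_true.1 h10 (m 10, b 10) (mem_st (hok 10))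
  have h12 := gd_true h11 (show (!(m 10 && m 7) && ok (nr (m 10) (m 7)) (b 7 + b 10)) = true by
    rw [n12.2, n12.1, e12, hok 12]; rfl)
  have k1 : nr (m 10, b 10).1 (m 7) = m 12 := n12.1
  have k2 : b 7 + (m 10, b 10).2 = b 12 := e12
  rw [k1, k2] at h12
  have h13 := gd_true h12 (show (!(m 12 && m 9) && ok (nr (m 12) (m 9)) (b 9 + b 12)) = true by
    rw [n14.2, n14.1, e14, hok 14]; rfl)
  rw [n14.1, e14] at h13
  have h14 := gd_true h13 (show (!(m 14 && m 6) && ok (nr (m 14) (m 6)) (b 6 + b 14)) = true by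
    rw [n11.2, n11.1, e11, hok 11]; rfl)
  rw [n11.1, e11] at h14
  have h15 := gd_true h14 (show (!(m 11 && m 8) && ok (nr (m 11) (m 8)) (b 8 + b 11)) = true by
    rw [n13.2, n13.1, e13, hok 13]; rfl)
  rw [n13.1, e13] at h15
  have h16 := gd_true h15 (show (!(m 13 && m 5) && (nr (m 13) (m 5) == m 10) &&
      (b 5 + b 13 == b 10)) = true by
    rw [n10.2, n10.1, e10]; simp)
  have key : ∀ (μ : Bool) (k : ℕ), ex μ k [(m 0, b 0), (m 1, b 1), (m 2, b 2), (m 3, b 3),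
      (m 4, b 4), (m 5, b 5), (m 6, b 6), (m 7, b 7), (m 8, b 8), (m 9, b 9), (m 10, b 10),
      (m 11, b 11), (m 12, b 12), (m 13, b 13), (m 14, b 14)] = true →
      ∃ f, m f = μ ∧ (b f).natAbs = k := by
    intro μ k h
    obtain ⟨x, hx, h1, h2⟩ := ex_true h
    simp only [List.mem_cons, List.not_mem_nil, or_false] at hx
    rcases hx with rfl | rfl | rfl | rfl | rfl | rfl | rfl | rfl | rfl | rfl | rfl | rfl | rfl |
      rfl | rfl <;> exact ⟨_, h1, h2⟩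
  change allTypes [(m 0, b 0), (m 1, b 1), (m 2, b 2), (m 3, b 3), (m 4, b 4), (m 5, b 5),
    (m 6, b 6), (m 7, b 7), (m 8, b 8), (m 9, b 9), (m 10, b 10), (m 11, b 11), (m 12, b 12),
    (m 13, b 13), (m 14, b 14)] = true at h16
  unfold allTypes at h16
  simp only [Bool.and_eq_true] at h16
  obtain ⟨⟨⟨⟨⟨t1, t2⟩, t3⟩, t4⟩, t5⟩, t6⟩ := h16
  intro μ k hk hμ
  cases μ with
  | true =>
    have := hμ rfl
    interval_cases k
    · exact key _ _ t1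
    · exact key _ _ t2
  | false =>
    interval_cases k
    · exact key _ _ t3
    · exact key _ _ t4
    · exact key _ _ t5
    · exact key _ _ t6

lemma tri {a₁ a₂ a₃ b₁ b₂ b₃ : ℤ} (h : a₁ + a₂ = a₃) (h' : b₁ + b₂ = b₃)
    (h1 : |a₁| ≤ 1) (h2 : |a₂| ≤ 1) (h3 : |a₃| ≤ 1) (k1 : |b₁| ≤ 3) (k2 : |b₂| ≤ 3) (k3 : |b₃| ≤ 3)
    (l1 : a₁ = 0 → 2 ≤ |b₁|) (l2 : a₂ = 0 → 2 ≤ |b₂|) (l3 : a₃ = 0 → 2 ≤ |b₃|) :
    (a₁ = 0 ∧ a₂ ≠ 0 ∧ a₃ ≠ 0) ∨ (a₁ ≠ 0 ∧ a₂ = 0 ∧ a₃ ≠ 0) ∨ (a₁ ≠ 0 ∧ a₂ ≠ 0 ∧ a₃ = 0) := by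
  rw [abs_le] at h1 h2 h3 k1 k2 k3
  simp only [le_abs] at l1 l2 l3
  omega

lemma tri13 {a₁ a₂ a₃ : ℤ}
    (h : (a₁ = 0 ∧ a₂ ≠ 0 ∧ a₃ ≠ 0) ∨ (a₁ ≠ 0 ∧ a₂ = 0 ∧ a₃ ≠ 0) ∨ (a₁ ≠ 0 ∧ a₂ ≠ 0 ∧ a₃ = 0)) :
    nr (decide (a₁ = 0)) (decide (a₃ = 0)) = decide (a₂ = 0) ∧
      (decide (a₁ = 0) && decide (a₃ = 0)) = false := by
  rcases h with ⟨h1, h2, h3⟩ | ⟨h1, h2, h3⟩ | ⟨h1, h2, h3⟩ <;> simp [nr, h1, h2, h3]

lemma tri21 {a₁ a₂ a₃ : ℤ}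
    (h : (a₁ = 0 ∧ a₂ ≠ 0 ∧ a₃ ≠ 0) ∨ (a₁ ≠ 0 ∧ a₂ = 0 ∧ a₃ ≠ 0) ∨ (a₁ ≠ 0 ∧ a₂ ≠ 0 ∧ a₃ = 0)) :
    nr (decide (a₂ = 0)) (decide (a₁ = 0)) = decide (a₃ = 0) ∧
      (decide (a₂ = 0) && decide (a₁ = 0)) = false := by
  rcases h with ⟨h1, h2, h3⟩ | ⟨h1, h2, h3⟩ | ⟨h1, h2, h3⟩ <;> simp [nr, h1, h2, h3]

/-- In every `1/2`-flow-pair of the Petersen graph all types of values occur. -/
theorem petersen_types {a b : Fin 15 → ℤ} (h : petersen.IsHalfFlowPair a b) (μ : Bool) (k : ℕ)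
    (hk : k ≤ 3) (hμ : μ = true → 2 ≤ k) : ∃ f, (decide (a f = 0)) = μ ∧ (b f).natAbs = k := by
  obtain ⟨⟨ha, ha'⟩, ⟨hb, hb'⟩, hab⟩ := h
  obtain ⟨⟨p0, p1, p2, p3, p4⟩, p5, p6, p7, p8, p9⟩ := petersen_flow ha'
  obtain ⟨⟨q0, q1, q2, q3, q4⟩, q5, q6, q7, q8, q9⟩ := petersen_flow hb'
  have ha1 : ∀ f, |a f| ≤ 1 := fun f => by simpa using ha f
  have hb3 : ∀ f, |b f| ≤ 3 := fun f => by simpa using hb f
  have T : ∀ i j l : Fin 15, a i + a j = a l → b i + b j = b l →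
      (a i = 0 ∧ a j ≠ 0 ∧ a l ≠ 0) ∨ (a i ≠ 0 ∧ a j = 0 ∧ a l ≠ 0) ∨
        (a i ≠ 0 ∧ a j ≠ 0 ∧ a l = 0) := fun i j l h h' =>
    tri h h' (ha1 i) (ha1 j) (ha1 l) (hb3 i) (hb3 j) (hb3 l) (hab i) (hab j) (hab l)
  refine allTypes_of (fun f => decide (a f = 0)) b ?_ (by linarith) (by linarith) (by linarith)
    (by linarith) (by linarith) (by linarith) (by linarith) (by linarith) (by linarith)
    (by linarith) (tri13 (T 0 5 4 p0 q0)) (tri13 (T 1 6 0 p1 q1)) (tri13 (T 2 7 1 p2 q2))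
    (tri13 (T 3 8 2 p3 q3)) (tri13 (T 4 9 3 p4 q4)) (tri21 (T 7 10 12 p7.symm q7.symm))
    (tri21 (T 9 12 14 p9.symm q9.symm)) (tri21 (T 6 14 11 p6.symm q6.symm))
    (tri21 (T 8 11 13 p8.symm q8.symm)) (tri21 (T 5 13 10 p5.symm q5.symm)) μ k hk hμ
  intro f
  have h1 : (b f).natAbs ≤ 3 := by
    have := hb3 f
    rw [abs_le] at this
    omega
  unfold ok
  rw [Bool.and_eq_true]
  refine ⟨Nat.ble_eq_true_of_le h1, ?_⟩
  by_cases h2 : a f = 0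
  · have h3 := hab f h2
    rw [le_abs] at h3
    have h4 : 2 ≤ (b f).natAbs := by omega
    simp [h2, Nat.ble_eq_true_of_le h4]
  · simp [h2]

end Pool.Agent.TH60.HE
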