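import Mathlib
import Pool.Agent.TH60.HE.Types

/-!
# Prescribing the values of a `1/2`-flow-pair at an edge
-/

set_option autoImplicit false
set_option linter.unusedSectionVars false

namespace Pool.Agent.TH60.HE
open Finset Pool.Agent.H160R2.HF Pool.Agent.H160R2.HF.OrGraph

variable {V E : Type*} [Fintype V] [Fintype E] [DecidableEq V] [DecidableEq E]

lemma isFlow_smul {G : OrGraph V E} {φ : E → ℤ} (h : G.IsFlow φ) (c : ℤ) :
    G.IsFlow (fun x => c * φ x) := by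
  intro v
  rw [← Finset.mul_sum, ← Finset.mul_sum, h v]

/-- the substituted graph is bridgeless -/
theorem substitute_bridgeless (G : OrGraph V E) (hG : G.Bridgeless) (e : E) :
    (substitute G e).Bridgeless := by
  obtain ⟨π, hπ, hπ0⟩ := petersen_nowhere_zero
  have key : ∀ ψ : E → ℤ, G.IsFlow ψ → (substitute G e).IsFlow
      (Sum.elim (fun f => ψ e * π f) (fun x => π x.1 * ψ x.2)) := by
    intro ψ hψ
    rw [isFlow_sub_iff]
    refine ⟨fun f => isFlow_smul hψ (π f), fun f => mul_comm _ _, isFlow_smul hπ (ψ e)⟩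
  apply bridgeless_of_flow
  rintro (f | ⟨f, x⟩)
  · obtain ⟨ψ, hψ, h1⟩ := exists_flow G hG e
    refine ⟨_, key ψ hψ, ?_⟩
    change ψ e * π f ≠ 0
    rw [h1, one_mul]
    exact hπ0 f
  · obtain ⟨ψ, hψ, h1⟩ := exists_flow G hG x
    refine ⟨_, key ψ hψ, ?_⟩
    change π f * ψ x ≠ 0
    rw [h1, mul_one]
    exact hπ0 f

lemma isFlow_neg {G : OrGraph V E} {φ : E → ℤ} (h : G.IsFlow φ) : G.IsFlow (fun x => -φ x) := by
  intro v
  rw [Finset.sum_neg_distrib, Finset.sum_neg_distrib, h v]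

lemma pair_neg₂ {G : OrGraph V E} {a b : E → ℤ} (h : G.IsHalfFlowPair a b) :
    G.IsHalfFlowPair (fun x => -a x) b := by
  obtain ⟨⟨h1, h2⟩, h3, h4⟩ := h
  exact ⟨⟨fun e => by rw [abs_neg]; exact h1 e, isFlow_neg h2⟩, h3,
    fun e he => h4 e (neg_eq_zero.1 he)⟩

lemma pair_neg₄ {G : OrGraph V E} {a b : E → ℤ} (h : G.IsHalfFlowPair a b) :
    G.IsHalfFlowPair a (fun x => -b x) := by
  obtain ⟨h1, ⟨h2, h3⟩, h4⟩ := h
  exact ⟨h1, ⟨fun e => by rw [abs_neg]; exact h2 e, isFlow_neg h3⟩,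
    fun e he => by rw [abs_neg]; exact h4 e he⟩

/-- if the substituted graph has a `1/2`-flow-pair, then all admissible values can be prescribed
at the edge `e` of `G` -/
theorem prescribe (G : OrGraph V E) (e : E) {a b : Fin 15 ⊕ (Fin 15 × E) → ℤ}
    (h : (substitute G e).IsHalfFlowPair a b) (x y : ℤ) (hx : |x| ≤ 1) (hy : |y| ≤ 3)
    (hxy : x = 0 → 2 ≤ |y|) :
    ∃ φ₂ φ₄ : E → ℤ, G.IsHalfFlowPair φ₂ φ₄ ∧ φ₂ e = x ∧ φ₄ e = y := by
  obtain ⟨⟨ha, ha'⟩, ⟨hb, hb'⟩, hab⟩ := h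
  rw [isFlow_sub_iff] at ha' hb'
  obtain ⟨a1, a2, a3⟩ := ha'
  obtain ⟨b1, b2, b3⟩ := hb'
  have hP : petersen.IsHalfFlowPair (fun f => a (Sum.inl f)) (fun f => b (Sum.inl f)) :=
    ⟨⟨fun f => ha _, a3⟩, ⟨fun f => hb _, b3⟩, fun f => hab _⟩
  have hG : ∀ f, G.IsHalfFlowPair (fun x => a (Sum.inr (f, x))) (fun x => b (Sum.inr (f, x))) :=
    fun f => ⟨⟨fun x => ha _, a1 f⟩, ⟨fun x => hb _, b1 f⟩, fun x => hab _⟩
  obtain ⟨f, h1, h2⟩ := petersen_types hP (decide (x = 0)) y.natAbs (by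
    rw [abs_le] at hy
    omega) (fun h => by
      have := hxy (of_decide_eq_true h)
      rw [le_abs] at this
      omega)
  have h3 : a (Sum.inr (f, e)) = 0 ↔ x = 0 := by
    rw [← a2 f]
    exact decide_eq_decide.1 h1
  have h4 : (b (Sum.inr (f, e))).natAbs = y.natAbs := by
    rw [← b2 f]
    exact h2
  have h5 : |a (Sum.inr (f, e))| ≤ 1 := by simpa using ha (Sum.inr (f, e))
  have h6 : a (Sum.inr (f, e)) = x ∨ -a (Sum.inr (f, e)) = x := by
    rw [abs_le] at h5 hx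
    omega
  have h7 : b (Sum.inr (f, e)) = y ∨ -b (Sum.inr (f, e)) = y := by omega
  rcases h6 with h6 | h6 <;> rcases h7 with h7 | h7
  · exact ⟨_, _, hG f, h6, h7⟩
  · exact ⟨_, _, pair_neg₄ (hG f), h6, h7⟩
  · exact ⟨_, _, pair_neg₂ (hG f), h6, h7⟩
  · exact ⟨_, _, pair_neg₄ (pair_neg₂ (hG f)), h6, h7⟩

end Pool.Agent.TH60.HE
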