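import Mathlib
import Pool.Agent.TH60.HE.Check

/-!
# The values of a `1/2`-flow-pair at the vertices of the Petersen graph: a finite search
-/

set_option autoImplicit false
set_option maxRecDepth 100000

namespace Pool.Agent.TH60.HE

/-- the 2-flow vanishes on the first edge and the absolute values of the 4-flow are `k₀` there and
`k₁`, `k₂` on the two others, in this order or exchanged -/
def vc1 (k₀ k₁ k₂ : ℕ) (x y z : Bool × ℤ) : Bool :=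
  x.1 && Nat.beq x.2.natAbs k₀ && ((Nat.beq y.2.natAbs k₁ && Nat.beq z.2.natAbs k₂) ||
    (Nat.beq z.2.natAbs k₁ && Nat.beq y.2.natAbs k₂))

def vc (k₀ k₁ k₂ : ℕ) (x y z : Bool × ℤ) : Bool :=
  vc1 k₀ k₁ k₂ x y z || vc1 k₀ k₁ k₂ y z x || vc1 k₀ k₁ k₂ z x y

def exv (k₀ k₁ k₂ : ℕ) : List ((Bool × ℤ) × (Bool × ℤ) × (Bool × ℤ)) → Bool
  | [] => false
  | x :: l => bif vc k₀ k₁ k₂ x.1 x.2.1 x.2.2 then true else exv k₀ k₁ k₂ l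

def allVerts (l : List ((Bool × ℤ) × (Bool × ℤ) × (Bool × ℤ))) : Bool :=
  exv 2 1 3 l && exv 2 0 2 l && exv 2 1 1 l && exv 3 0 3 l && exv 3 1 2 l

def vcheck3 (m0 m1 m2 m3 m4 m5 m6 m7 m8 m9 m10 m12 m14 m11 m13 : Bool)
    (b0 b1 b2 b3 b4 b5 b6 b7 b8 b9 b10 b12 b14 b11 b13 : ℤ) : Bool :=
  allVerts [((m0, b0), (m4, b4), (m5, b5)), ((m1, b1), (m0, b0), (m6, b6)),
    ((m2, b2), (m1, b1), (m7, b7)), ((m3, b3), (m2, b2), (m8, b8)), ((m4, b4), (m3, b3), (m9, b9)),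
    ((m5, b5), (m10, b10), (m13, b13)), ((m6, b6), (m11, b11), (m14, b14)),
    ((m7, b7), (m12, b12), (m10, b10)), ((m8, b8), (m13, b13), (m11, b11)),
    ((m9, b9), (m14, b14), (m12, b12))]

def vcheck2 (m0 m1 m2 m3 m4 m5 m6 m7 m8 m9 : Bool) (b0 b1 b2 b3 b4 b5 b6 b7 b8 b9 : ℤ) : Bool :=
  st.all fun x10 =>
  gd (!(x10.1 && m7) && ok (nr x10.1 m7) (b7 + x10.2)) <|
  (fun (m12 : Bool) (b12 : ℤ) =>
    gd (!(m12 && m9) && ok (nr m12 m9) (b9 + b12)) <|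
    (fun (m14 : Bool) (b14 : ℤ) =>
      gd (!(m14 && m6) && ok (nr m14 m6) (b6 + b14)) <|
      (fun (m11 : Bool) (b11 : ℤ) =>
        gd (!(m11 && m8) && ok (nr m11 m8) (b8 + b11)) <|
        (fun (m13 : Bool) (b13 : ℤ) =>
          gd (!(m13 && m5) && (nr m13 m5 == x10.1) && (b5 + b13 == x10.2)) <|
          vcheck3 m0 m1 m2 m3 m4 m5 m6 m7 m8 m9 x10.1 m12 m14 m11 m13
            b0 b1 b2 b3 b4 b5 b6 b7 b8 b9 x10.2 b12 b14 b11 b13)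
        (nr m11 m8) (b8 + b11))
      (nr m14 m6) (b6 + b14))
    (nr m12 m9) (b9 + b12))
  (nr x10.1 m7) (b7 + x10.2)

def vcheck : Bool :=
  st.all fun x4 => st.all fun x0 =>
  gd (!(x0.1 && x4.1) && ok (nr x0.1 x4.1) (x4.2 - x0.2)) <|
  st.all fun x1 =>
  gd (!(x1.1 && x0.1) && ok (nr x1.1 x0.1) (x0.2 - x1.2)) <|
  st.all fun x2 =>
  gd (!(x2.1 && x1.1) && ok (nr x2.1 x1.1) (x1.2 - x2.2)) <|
  st.all fun x3 =>
  gd (!(x3.1 && x2.1) && ok (nr x3.1 x2.1) (x2.2 - x3.2)) <|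
  gd (!(x4.1 && x3.1) && ok (nr x4.1 x3.1) (x3.2 - x4.2)) <|
  vcheck2 x0.1 x1.1 x2.1 x3.1 x4.1 (nr x0.1 x4.1) (nr x1.1 x0.1) (nr x2.1 x1.1) (nr x3.1 x2.1)
    (nr x4.1 x3.1) x0.2 x1.2 x2.2 x3.2 x4.2 (x4.2 - x0.2) (x0.2 - x1.2) (x1.2 - x2.2)
    (x2.2 - x3.2) (x3.2 - x4.2)

theorem vcheck_eq : vcheck = true := by decide +kernel

end Pool.Agent.TH60.HE
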