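import Mathlib
import Pool.Agent.TH60.HE.VCheck
import Pool.Agent.TH60.HE.Types

/-!
# Every `1/2`-flow-pair of the Petersen graph has vertices of all types
-/

set_option autoImplicit false

namespace Pool.Agent.TH60.HE
open Finset Pool.Agent.H160R2.HF Pool.Agent.H160R2.HF.OrGraph

/-- the three edges at a vertex of the Petersen graph -/
def pp : Fin 10 → Fin 3 → Fin 15 :=
  ![![0, 4, 5], ![1, 0, 6], ![2, 1, 7], ![3, 2, 8], ![4, 3, 9], ![5, 10, 13], ![6, 11, 14],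
    ![7, 12, 10], ![8, 13, 11], ![9, 14, 12]]

lemma vc_true {k₀ k₁ k₂ : ℕ} {x : Fin 3 → Bool × ℤ} (h : vc k₀ k₁ k₂ (x 0) (x 1) (x 2) = true) :
    ∃ σ : Fin 3 → Fin 3, Function.Injective σ ∧ (x (σ 0)).1 = true ∧ (x (σ 0)).2.natAbs = k₀ ∧
      (x (σ 1)).2.natAbs = k₁ ∧ (x (σ 2)).2.natAbs = k₂ := by
  unfold vc vc1 at h
  simp only [Bool.or_eq_true, Bool.and_eq_true, Nat.beq_eq] at h
  rcases h with (⟨⟨h1, h2⟩, ⟨h3, h4⟩ | ⟨h3, h4⟩⟩ | ⟨⟨h1, h2⟩, ⟨h3, h4⟩ | ⟨h3, h4⟩⟩) |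
    ⟨⟨h1, h2⟩, ⟨h3, h4⟩ | ⟨h3, h4⟩⟩
  · exact ⟨![0, 1, 2], by decide, h1, h2, h3, h4⟩
  · exact ⟨![0, 2, 1], by decide, h1, h2, h3, h4⟩
  · exact ⟨![1, 2, 0], by decide, h1, h2, h3, h4⟩
  · exact ⟨![1, 0, 2], by decide, h1, h2, h3, h4⟩
  · exact ⟨![2, 0, 1], by decide, h1, h2, h3, h4⟩
  · exact ⟨![2, 1, 0], by decide, h1, h2, h3, h4⟩

lemma exv_true {k₀ k₁ k₂ : ℕ} {l : List ((Bool × ℤ) × (Bool × ℤ) × (Bool × ℤ))}
    (h : exv k₀ k₁ k₂ l = true) : ∃ x ∈ l, vc k₀ k₁ k₂ x.1 x.2.1 x.2.2 = true := by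
  induction l with
  | nil => exact absurd h Bool.false_ne_true
  | cons x l ih =>
    unfold exv at h
    cases hc : vc k₀ k₁ k₂ x.1 x.2.1 x.2.2 with
    | true => exact ⟨x, List.mem_cons_self, hc⟩
    | false =>
      rw [hc] at h
      obtain ⟨y, hy, hy'⟩ := ih h
      exact ⟨y, List.mem_cons_of_mem _ hy, hy'⟩

theorem allVerts_of (m : Fin 15 → Bool) (b : Fin 15 → ℤ) (hok : ∀ f, ok (m f) (b f) = true)
    (e5 : b 4 - b 0 = b 5) (e6 : b 0 - b 1 = b 6) (e7 : b 1 - b 2 = b 7) (e8 : b 2 - b 3 = b 8)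
    (e9 : b 3 - b 4 = b 9) (e12 : b 7 + b 10 = b 12) (e14 : b 9 + b 12 = b 14)
    (e11 : b 6 + b 14 = b 11) (e13 : b 8 + b 11 = b 13) (e10 : b 5 + b 13 = b 10)
    (n5 : nr (m 0) (m 4) = m 5 ∧ (m 0 && m 4) = false)
    (n6 : nr (m 1) (m 0) = m 6 ∧ (m 1 && m 0) = false)
    (n7 : nr (m 2) (m 1) = m 7 ∧ (m 2 && m 1) = false)
    (n8 : nr (m 3) (m 2) = m 8 ∧ (m 3 && m 2) = false)
    (n9 : nr (m 4) (m 3) = m 9 ∧ (m 4 && m 3) = false)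
    (n12 : nr (m 10) (m 7) = m 12 ∧ (m 10 && m 7) = false)
    (n14 : nr (m 12) (m 9) = m 14 ∧ (m 12 && m 9) = false)
    (n11 : nr (m 14) (m 6) = m 11 ∧ (m 14 && m 6) = false)
    (n13 : nr (m 11) (m 8) = m 13 ∧ (m 11 && m 8) = false)
    (n10 : nr (m 13) (m 5) = m 10 ∧ (m 13 && m 5) = false) :
    ∀ k₀ k₁ k₂ : ℕ, (k₀, k₁, k₂) ∈ [(2, 1, 3), (2, 0, 2), (2, 1, 1), (3, 0, 3), (3, 1, 2)] →
      ∃ (w : Fin 10) (σ : Fin 3 → Fin 3), Function.Injective σ ∧ m (pp w (σ 0)) = true ∧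
        (b (pp w (σ 0))).natAbs = k₀ ∧ (b (pp w (σ 1))).natAbs = k₁ ∧
        (b (pp w (σ 2))).natAbs = k₂ := by
  have h0 := vcheck_eq
  unfold vcheck at h0
  have h1 := List.all_eq_true.1 h0 (m 4, b 4) (mem_st (hok 4))
  have h2 := List.all_eq_true.1 h1 (m 0, b 0) (mem_st (hok 0))
  have h3 := gd_true h2 (show (!(m 0 && m 4) && ok (nr (m 0) (m 4)) (b 4 - b 0)) = true by
    rw [n5.2, n5.1, e5, hok 5]; rfl)
  have h4 := List.all_eq_true.1 h3 (m 1, b 1) (mem_st (hok 1))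
  have h5 := gd_true h4 (show (!(m 1 && m 0) && ok (nr (m 1) (m 0)) (b 0 - b 1)) = true by
    rw [n6.2, n6.1, e6, hok 6]; rfl)
  have h6 := List.all_eq_true.1 h5 (m 2, b 2) (mem_st (hok 2))
  have h7 := gd_true h6 (show (!(m 2 && m 1) && ok (nr (m 2) (m 1)) (b 1 - b 2)) = true by
    rw [n7.2, n7.1, e7, hok 7]; rfl)
  have h8 := List.all_eq_true.1 h7 (m 3, b 3) (mem_st (hok 3))
  have h9 := gd_true h8 (show (!(m 3 && m 2) && ok (nr (m 3) (m 2)) (b 2 - b 3)) = true by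
    rw [n8.2, n8.1, e8, hok 8]; rfl)
  have h10 := gd_true h9 (show (!(m 4 && m 3) && ok (nr (m 4) (m 3)) (b 3 - b 4)) = true by
    rw [n9.2, n9.1, e9, hok 9]; rfl)
  change vcheck2 (m 0) (m 1) (m 2) (m 3) (m 4) (nr (m 0) (m 4)) (nr (m 1) (m 0)) (nr (m 2) (m 1))
    (nr (m 3) (m 2)) (nr (m 4) (m 3)) (b 0) (b 1) (b 2) (b 3) (b 4) (b 4 - b 0) (b 0 - b 1)
    (b 1 - b 2) (b 2 - b 3) (b 3 - b 4) = true at h10
  rw [n5.1, n6.1, n7.1, n8.1, n9.1, e5, e6, e7, e8, e9] at h10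
  unfold vcheck2 at h10
  have h11 := List.all_eq_true.1 h10 (m 10, b 10) (mem_st (hok 10))
  have h12 := gd_true h11 (show (!(m 10 && m 7) && ok (nr (m 10) (m 7)) (b 7 + b 10)) = true by
    rw [n12.2, n12.1, e12, hok 12]; rfl)
  have k1 : nr (m 10, b 10).1 (m 7) = m 12 := n12.1
  have k2 : b 7 + (m 10, b 10).2 = b 12 := e12
  rw [k1, k2] at h12
  have h13 := gd_true h12 (show (!(m 12 && m 9) && ok (nr (m 12) (m 9)) (b 9 + b 12)) = true by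
    rw [n14.2, n14.1, e14, hok 14]; rfl)
  rw [n14.1, e14] at h13
  have h14 := gd_true h13 (show (!(m 14 && m 6) && ok (nr (m 14) (m 6)) (b 6 + b 14)) = true by
    rw [n11.2, n11.1, e11, hok 11]; rfl)
  rw [n11.1, e11] at h14
  have h15 := gd_true h14 (show (!(m 11 && m 8) && ok (nr (m 11) (m 8)) (b 8 + b 11)) = true by
    rw [n13.2, n13.1, e13, hok 13]; rfl)
  rw [n13.1, e13] at h15
  have h16 := gd_true h15 (show (!(m 13 && m 5) && (nr (m 13) (m 5) == m 10) &&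
      (b 5 + b 13 == b 10)) = true by
    rw [n10.2, n10.1, e10]; simp)
  have key : ∀ k₀ k₁ k₂ : ℕ, exv k₀ k₁ k₂ (List.ofFn fun w : Fin 10 =>
      ((m (pp w 0), b (pp w 0)), (m (pp w 1), b (pp w 1)), (m (pp w 2), b (pp w 2)))) = true →
      ∃ (w : Fin 10) (σ : Fin 3 → Fin 3), Function.Injective σ ∧ m (pp w (σ 0)) = true ∧
        (b (pp w (σ 0))).natAbs = k₀ ∧ (b (pp w (σ 1))).natAbs = k₁ ∧
        (b (pp w (σ 2))).natAbs = k₂ := by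
    intro k₀ k₁ k₂ h
    obtain ⟨x, hx, h1⟩ := exv_true h
    rw [List.mem_ofFn] at hx
    obtain ⟨w, rfl⟩ := hx
    obtain ⟨σ, h2, h3⟩ := vc_true (x := fun i => (m (pp w i), b (pp w i))) h1
    exact ⟨w, σ, h2, h3⟩
  change allVerts (List.ofFn fun w : Fin 10 =>
      ((m (pp w 0), b (pp w 0)), (m (pp w 1), b (pp w 1)), (m (pp w 2), b (pp w 2)))) = true at h16
  unfold allVerts at h16
  simp only [Bool.and_eq_true] at h16
  obtain ⟨⟨⟨⟨t1, t2⟩, t3⟩, t4⟩, t5⟩ := h16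
  intro k₀ k₁ k₂ hk
  simp only [List.mem_cons, List.not_mem_nil, or_false, Prod.mk.injEq] at hk
  rcases hk with ⟨rfl, rfl, rfl⟩ | ⟨rfl, rfl, rfl⟩ | ⟨rfl, rfl, rfl⟩ | ⟨rfl, rfl, rfl⟩ |
    ⟨rfl, rfl, rfl⟩
  · exact key _ _ _ t1
  · exact key _ _ _ t2
  · exact key _ _ _ t3
  · exact key _ _ _ t4
  · exact key _ _ _ t5

/-- In every `1/2`-flow-pair of the Petersen graph all five types of vertices occur. -/
theorem petersen_verts {a b : Fin 15 → ℤ} (h : petersen.IsHalfFlowPair a b) (k₀ k₁ k₂ : ℕ)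
    (hk : (k₀, k₁, k₂) ∈ [(2, 1, 3), (2, 0, 2), (2, 1, 1), (3, 0, 3), (3, 1, 2)]) :
    ∃ (w : Fin 10) (σ : Fin 3 → Fin 3), Function.Injective σ ∧ a (pp w (σ 0)) = 0 ∧
      (b (pp w (σ 0))).natAbs = k₀ ∧ (b (pp w (σ 1))).natAbs = k₁ ∧
      (b (pp w (σ 2))).natAbs = k₂ := by
  obtain ⟨⟨ha, ha'⟩, ⟨hb, hb'⟩, hab⟩ := h
  obtain ⟨⟨p0, p1, p2, p3, p4⟩, p5, p6, p7, p8, p9⟩ := petersen_flow ha'
  obtain ⟨⟨q0, q1, q2, q3, q4⟩, q5, q6, q7, q8, q9⟩ := petersen_flow hb'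
  have ha1 : ∀ f, |a f| ≤ 1 := fun f => by simpa using ha f
  have hb3 : ∀ f, |b f| ≤ 3 := fun f => by simpa using hb f
  have T : ∀ i j l : Fin 15, a i + a j = a l → b i + b j = b l →
      (a i = 0 ∧ a j ≠ 0 ∧ a l ≠ 0) ∨ (a i ≠ 0 ∧ a j = 0 ∧ a l ≠ 0) ∨
        (a i ≠ 0 ∧ a j ≠ 0 ∧ a l = 0) := fun i j l h h' =>
    tri h h' (ha1 i) (ha1 j) (ha1 l) (hb3 i) (hb3 j) (hb3 l) (hab i) (hab j) (hab l)
  have main := allVerts_of (fun f => decide (a f = 0)) b ?_ (by linarith) (by linarith) (by linarith)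
    (by linarith) (by linarith) (by linarith) (by linarith) (by linarith) (by linarith)
    (by linarith) (tri13 (T 0 5 4 p0 q0)) (tri13 (T 1 6 0 p1 q1)) (tri13 (T 2 7 1 p2 q2))
    (tri13 (T 3 8 2 p3 q3)) (tri13 (T 4 9 3 p4 q4)) (tri21 (T 7 10 12 p7.symm q7.symm))
    (tri21 (T 9 12 14 p9.symm q9.symm)) (tri21 (T 6 14 11 p6.symm q6.symm))
    (tri21 (T 8 11 13 p8.symm q8.symm)) (tri21 (T 5 13 10 p5.symm q5.symm)) k₀ k₁ k₂ hk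
  · obtain ⟨w, σ, h1, h2, h3⟩ := main
    exact ⟨w, σ, h1, of_decide_eq_true h2, h3⟩
  intro f
  have h1 : (b f).natAbs ≤ 3 := by
    have := hb3 f
    rw [abs_le] at this
    omega
  unfold ok
  rw [Bool.and_eq_true]
  refine ⟨Nat.ble_eq_true_of_le h1, ?_⟩
  by_cases h2 : a f = 0
  · have h3 := hab f h2
    rw [le_abs] at h3
    have h4 : 2 ≤ (b f).natAbs := by omega
    simp [h2, Nat.ble_eq_true_of_le h4]
  · simp [h2]

end Pool.Agent.TH60.HE
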