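import Mathlib
import Pool.Agent.TH60.HE.VTypes

/-!
# Substituting a graph minus a vertex for the vertices of the Petersen graph
-/

set_option autoImplicit false
set_option linter.unusedSectionVars false

namespace Pool.Agent.TH60.HE
open Finset Pool.Agent.H160R2.HF Pool.Agent.H160R2.HF.OrGraph

/-- the index of an edge at its tail and at its head -/
def ti : Fin 15 → Fin 3 := ![0, 0, 0, 0, 0, 2, 2, 2, 2, 2, 1, 1, 1, 1, 1]

def hi : Fin 15 → Fin 3 := ![1, 1, 1, 1, 1, 0, 0, 0, 0, 0, 2, 2, 2, 2, 2]

variable {V E : Type*} [Fintype V] [Fintype E] [DecidableEq V] [DecidableEq E]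

/-- the sign with which a value is counted as outflow at `v` -/
def so (G : OrGraph V E) (v : V) (x : E) : ℤ := if G.t x = v then 1 else -1

lemma so_sq (G : OrGraph V E) (v : V) (x : E) : so G v x * so G v x = 1 := by
  unfold so
  split_ifs <;> ring

lemma mem_cut_single {G : OrGraph V E} {v : V} {x : E} :
    x ∈ G.cut {v} ↔ ¬ (G.t x = v ↔ G.h x = v) := by
  unfold OrGraph.cut
  rw [mem_filter, mem_singleton, mem_singleton]
  simp

lemma net_star {G : OrGraph V E} {v : V} {g : Fin 3 → E} (hg : Function.Injective g)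
    (hc : G.cut {v} = univ.image g) (ψ : E → ℤ) :
    net G ψ v = ∑ i, so G v (g i) * ψ (g i) := by
  rw [← Finset.sum_image (f := fun x => so G v x * ψ x) (fun a _ b _ h => hg h), ← hc]
  unfold net
  symm
  apply Finset.sum_subset_zero_on_sdiff (Finset.subset_univ _)
  · intro x hx
    rw [mem_sdiff, mem_cut_single, not_not] at hx
    by_cases h : G.t x = v
    · rw [if_pos h, if_pos (hx.2.1 h), sub_self]
    · rw [if_neg h, if_neg (fun h' => h (hx.2.2 h')), sub_self]
  · intro x hx
    rw [mem_cut_single] at hx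
    unfold so
    by_cases h : G.t x = v
    · rw [if_pos h, if_pos h, if_neg (fun h' => hx ⟨fun _ => h', fun _ => h⟩)]
      ring
    · have h2 : G.h x = v := by
        by_contra h'
        exact hx ⟨fun k => absurd k h, fun k => absurd k h'⟩
      rw [if_neg h, if_neg h, if_pos h2]
      ring

/-- ten copies of `G`, one for each vertex `w` of the Petersen graph; the end at `v` of an edge
with exactly one end in `v` is moved to (the middle of) one of the three edges at `w` -/
def vsub (G : OrGraph V E) (v : V) (p : E → Fin 3) :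
    OrGraph (Fin 15 ⊕ (Fin 10 × V)) (Fin 10 × E) where
  t x := if G.t x.2 = v ∧ G.h x.2 ≠ v then Sum.inl (pp x.1 (p x.2)) else Sum.inr (x.1, G.t x.2)
  h x := if G.h x.2 = v ∧ G.t x.2 ≠ v then Sum.inl (pp x.1 (p x.2)) else Sum.inr (x.1, G.h x.2)

variable {G : OrGraph V E} {v : V} {p : E → Fin 3}

lemma vt_inr {u : V} (hu : u ≠ v) {w w' : Fin 10} {y : E} :
    (vsub G v p).t (w', y) = Sum.inr (w, u) ↔ w' = w ∧ G.t y = u := by
  unfold vsub
  dsimp only
  split_ifs with h
  · constructor
    · intro h'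
      exact absurd h' (by simp)
    · rintro ⟨_, h'⟩
      exact absurd (h'.symm.trans h.1) hu
  · rw [Sum.inr.injEq, Prod.mk.injEq]

lemma vh_inr {u : V} (hu : u ≠ v) {w w' : Fin 10} {y : E} :
    (vsub G v p).h (w', y) = Sum.inr (w, u) ↔ w' = w ∧ G.h y = u := by
  unfold vsub
  dsimp only
  split_ifs with h
  · constructor
    · intro h'
      exact absurd h' (by simp)
    · rintro ⟨_, h'⟩
      exact absurd (h'.symm.trans h.1) hu
  · rw [Sum.inr.injEq, Prod.mk.injEq]

lemma vnet_inr (φ : Fin 10 × E → ℤ) (w : Fin 10) {u : V} (hu : u ≠ v) :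
    net (vsub G v p) φ (Sum.inr (w, u)) = net G (fun y => φ (w, y)) u := by
  unfold net
  rw [Fintype.sum_prod_type, Finset.sum_eq_single w]
  · refine Finset.sum_congr rfl fun y _ => ?_
    simp only [vt_inr hu, vh_inr hu, true_and]
  · intro w' _ hw
    refine Finset.sum_eq_zero fun y _ => ?_
    simp only [vt_inr hu, vh_inr hu, hw, false_and, if_false, sub_self]
  · intro h
    exact absurd (Finset.mem_univ _) h

lemma vnet_v (φ : Fin 10 × E → ℤ) (w : Fin 10) : net (vsub G v p) φ (Sum.inr (w, v)) = 0 := by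
  unfold net
  refine Finset.sum_eq_zero fun x _ => ?_
  have h1 : (vsub G v p).t x = Sum.inr (w, v) ↔ (vsub G v p).h x = Sum.inr (w, v) := by
    unfold vsub
    dsimp only
    split_ifs with h h' h'
    · exact absurd h'.1 h.2
    · simp only [Sum.inr.injEq, Prod.mk.injEq, false_iff, not_and]
      exact fun _ => h.2
    · simp only [Sum.inr.injEq, Prod.mk.injEq, iff_false, not_and]
      exact fun _ => h'.2
    · rw [Sum.inr.injEq, Prod.mk.injEq, Sum.inr.injEq, Prod.mk.injEq]
      tauto
  by_cases h2 : (vsub G v p).t x = Sum.inr (w, v)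
  · rw [if_pos h2, if_pos (h1.1 h2), sub_self]
  · rw [if_neg h2, if_neg (fun h => h2 (h1.2 h)), sub_self]

lemma vnet_inl {g : Fin 3 → E} (hg : Function.Injective g) (hc : G.cut {v} = univ.image g)
    (hp : ∀ i, p (g i) = i) (φ : Fin 10 × E → ℤ) (f : Fin 15) :
    net (vsub G v p) φ (Sum.inl f) =
      ∑ w, ∑ i, if pp w i = f then so G v (g i) * φ (w, g i) else 0 := by
  unfold net
  rw [Fintype.sum_prod_type]
  refine Finset.sum_congr rfl fun w _ => ?_
  have h1 : ∀ i, (if pp w i = f then so G v (g i) * φ (w, g i) else 0) =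
      (fun x => if pp w (p x) = f then so G v x * φ (w, x) else 0) (g i) := by
    intro i
    change _ = if pp w (p (g i)) = f then so G v (g i) * φ (w, g i) else 0
    rw [hp i]
  rw [Finset.sum_congr rfl fun i _ => h1 i, ← Finset.sum_image
    (f := fun x => if pp w (p x) = f then so G v x * φ (w, x) else 0)
    (fun a _ b _ h => hg h), ← hc]
  symm
  apply Finset.sum_subset_zero_on_sdiff (Finset.subset_univ _)
  · intro x hx
    rw [mem_sdiff, mem_cut_single, not_not] at hx
    have h2 : ¬ (G.t x = v ∧ G.h x ≠ v) := fun h => h.2 (hx.2.1 h.1)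
    have h3 : ¬ (G.h x = v ∧ G.t x ≠ v) := fun h => h.2 (hx.2.2 h.1)
    unfold vsub
    simp only [if_neg h2, if_neg h3, reduceCtorEq, if_false, sub_self]
  · intro x hx
    rw [mem_cut_single] at hx
    unfold so vsub
    by_cases h : G.t x = v
    · have h4 : G.h x ≠ v := fun h' => hx ⟨fun _ => h', fun _ => h⟩
      have h2 : G.t x = v ∧ G.h x ≠ v := ⟨h, h4⟩
      have h3 : ¬ (G.h x = v ∧ G.t x ≠ v) := fun h => h4 h.1
      simp only [if_pos h2, if_neg h3, if_pos h, reduceCtorEq, if_false, sub_zero, one_mul,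
        Sum.inl.injEq]
    · have h4 : G.h x = v := by
        by_contra h'
        exact hx ⟨fun k => absurd k h, fun k => absurd k h'⟩
      have h2 : ¬ (G.t x = v ∧ G.h x ≠ v) := fun h' => h h'.1
      have h3 : G.h x = v ∧ G.t x ≠ v := ⟨h4, h⟩
      simp only [if_neg h2, if_pos h3, if_neg h, reduceCtorEq, if_false, Sum.inl.injEq]
      split_ifs <;> ring

lemma port_sum (o : Fin 10 → Fin 3 → ℤ) (f : Fin 15) :
    (∑ w, ∑ i, if pp w i = f then o w i else 0) =
      o (petersen.t f) (ti f) + o (petersen.h f) (hi f) := by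
  have h1 : ∀ f : Fin 15, univ.filter (fun q : Fin 10 × Fin 3 => pp q.1 q.2 = f) =
      {(petersen.t f, ti f), (petersen.h f, hi f)} := by decide
  have h2 : ∀ f : Fin 15, (petersen.t f, ti f) ≠ (petersen.h f, hi f) := by decide
  rw [← Fintype.sum_prod_type' (f := fun w i => if pp w i = f then o w i else 0),
    ← Finset.sum_filter, h1, Finset.sum_pair (h2 f)]

lemma pet_cut (w : Fin 10) : petersen.cut {w} = univ.image (pp w) := by
  revert w
  decide

lemma pp_inj (w : Fin 10) : Function.Injective (pp w) := by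
  revert w
  decide

lemma darts : ∀ (w : Fin 10) (i : Fin 3), (w = petersen.t (pp w i) ∧ i = ti (pp w i)) ∨
    (w = petersen.h (pp w i) ∧ i = hi (pp w i)) := by decide

lemma so_t : ∀ f : Fin 15, so petersen (petersen.t f) f = 1 ∧ so petersen (petersen.h f) f = -1 ∧
    pp (petersen.t f) (ti f) = f ∧ pp (petersen.h f) (hi f) = f := by decide

/-- the flows of the composed graph -/
lemma vflow {g : Fin 3 → E} (hg : Function.Injective g) (hc : G.cut {v} = univ.image g)
    (hp : ∀ i, p (g i) = i) {φ : Fin 10 × E → ℤ} (h : (vsub G v p).IsFlow φ) :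
    (∀ w, G.IsFlow fun y => φ (w, y)) ∧ ∃ π : Fin 15 → ℤ,
      (∀ f, π f = so G v (g (ti f)) * φ (petersen.t f, g (ti f))) ∧ petersen.IsFlow π ∧
      ∀ w i, so petersen w (pp w i) * π (pp w i) = so G v (g i) * φ (w, g i) := by
  rw [isFlow_iff] at h
  have hA : ∀ w, G.IsFlow fun y => φ (w, y) := by
    intro w
    rw [isFlow_iff]
    have h1 : ∀ u, u ≠ v → net G (fun y => φ (w, y)) u = 0 := by
      intro u hu
      rw [← vnet_inr (p := p) φ w hu]
      exact h _
    intro u
    by_cases hu : u = v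
    · subst hu
      have h2 := sum_net G (fun y => φ (w, y))
      rwa [Finset.sum_eq_single u (fun b _ hb => h1 b hb)
        (fun h => absurd (Finset.mem_univ _) h)] at h2
    · exact h1 u hu
  have hB : ∀ f, so G v (g (ti f)) * φ (petersen.t f, g (ti f)) +
      so G v (g (hi f)) * φ (petersen.h f, g (hi f)) = 0 := by
    intro f
    have h1 := h (Sum.inl f)
    rw [vnet_inl hg hc hp, port_sum (fun w i => so G v (g i) * φ (w, g i))] at h1
    exact h1
  have hD : ∀ w i, so petersen w (pp w i) *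
      (so G v (g (ti (pp w i))) * φ (petersen.t (pp w i), g (ti (pp w i)))) =
      so G v (g i) * φ (w, g i) := by
    intro w i
    rcases darts w i with ⟨h1, h2⟩ | ⟨h1, h2⟩
    · have h3 := (so_t (pp w i)).1
      rw [← h1, ← h2] at *
      rw [h3, one_mul]
    · have h3 := (so_t (pp w i)).2.1
      have h4 := hB (pp w i)
      rw [← h1] at h3
      rw [← h1, ← h2] at h4
      rw [h3]
      linarith
  refine ⟨hA, fun f => so G v (g (ti f)) * φ (petersen.t f, g (ti f)), fun f => rfl, ?_, hD⟩
  rw [isFlow_iff]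
  intro w
  rw [net_star (pp_inj w) (pet_cut w), Finset.sum_congr rfl fun i _ => hD w i,
    ← net_star hg hc (fun y => φ (w, y))]
  exact (isFlow_iff _ _).1 (hA w) v

/-- composing flows -/
lemma vflow_of {g : Fin 3 → E} (hg : Function.Injective g) (hc : G.cut {v} = univ.image g)
    (hp : ∀ i, p (g i) = i) {ψ : Fin 10 → E → ℤ} (hψ : ∀ w, G.IsFlow (ψ w)) (π : Fin 15 → ℤ)
    (h : ∀ w i, so G v (g i) * ψ w (g i) = so petersen w (pp w i) * π (pp w i)) :
    (vsub G v p).IsFlow fun x => ψ x.1 x.2 := by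
  rw [isFlow_iff]
  rintro (f | ⟨w, u⟩)
  · rw [vnet_inl hg hc hp, port_sum (fun w i => so G v (g i) * ψ w (g i))]
    obtain ⟨h1, h2, h3, h4⟩ := so_t f
    rw [h, h, h3, h4, h1, h2]
    ring
  · by_cases hu : u = v
    · subst hu
      exact vnet_v _ _
    · rw [vnet_inr _ _ hu]
      exact (isFlow_iff _ _).1 (hψ w) u

end Pool.Agent.TH60.HE
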