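import Mathlib
import Pool.Agent.TH60.HE.VSub
import Pool.Agent.TH60.HE.Main
import Pool.Agent.TH60.HE.Cut2

/-!
# Prescribing the values of a `1/2`-flow-pair at a vertex of degree three
-/

set_option autoImplicit false
set_option linter.unusedSectionVars false

namespace Pool.Agent.TH60.HE
open Finset Pool.Agent.H160R2.HF Pool.Agent.H160R2.HF.OrGraph

variable {V E : Type*} [Fintype V] [Fintype E] [DecidableEq V] [DecidableEq E]

variable {G : OrGraph V E} {v : V} {p : E → Fin 3}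

lemma isFlow_add {φ ψ : E → ℤ} (h : G.IsFlow φ) (h' : G.IsFlow ψ) :
    G.IsFlow fun x => φ x + ψ x := by
  rw [isFlow_iff] at *
  intro w
  rw [net_add, h w, h' w, add_zero]

/-- up to a common factor, all triples with sum zero are the outflows at a vertex of degree three -/
lemma surj (hG : G.Bridgeless) {g : Fin 3 → E} (hg : Function.Injective g)
    (hc : G.cut {v} = univ.image g) :
    ∃ D : ℤ, D ≠ 0 ∧ ∀ o : Fin 3 → ℤ, ∑ i, o i = 0 →
      ∃ ψ : E → ℤ, G.IsFlow ψ ∧ ∀ i, so G v (g i) * ψ (g i) = D * o i := by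
  have base : ∀ i : Fin 3, ∃ ψ : E → ℤ, G.IsFlow ψ ∧ so G v (g i) * ψ (g i) = 1 := by
    intro i
    obtain ⟨ψ, h1, h2⟩ := exists_flow G hG (g i)
    refine ⟨fun x => so G v (g i) * ψ x, isFlow_smul h1 _, ?_⟩
    change so G v (g i) * (so G v (g i) * ψ (g i)) = 1
    rw [h2, mul_one, so_sq]
  have hsum : ∀ ψ : E → ℤ, G.IsFlow ψ → so G v (g 0) * ψ (g 0) + so G v (g 1) * ψ (g 1) +
      so G v (g 2) * ψ (g 2) = 0 := by
    intro ψ hψ
    have h := (isFlow_iff _ _).1 hψ v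
    rwa [net_star hg hc, Fin.sum_univ_three] at h
  have fin : ∀ (D : ℤ) (o : Fin 3 → ℤ), ∑ i, o i = 0 → ∀ ψ : E → ℤ, G.IsFlow ψ →
      so G v (g 0) * ψ (g 0) = D * o 0 → so G v (g 1) * ψ (g 1) = D * o 1 →
      ∀ i, so G v (g i) * ψ (g i) = D * o i := by
    intro D o ho ψ hψ h0 h1 i
    have h2 := hsum ψ hψ
    rw [Fin.sum_univ_three] at ho
    have h3 : o 2 = -o 0 - o 1 := by linarith
    fin_cases i
    · exact h0
    · exact h1
    · change so G v (g 2) * ψ (g 2) = D * o 2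
      rw [h3]
      linarith
  obtain ⟨A, hA, hA0⟩ := base 0
  obtain ⟨B, hB, hB1⟩ := base 1
  obtain ⟨C, hC, hC2⟩ := base 2
  have sC := hsum C hC
  obtain ⟨a, ha⟩ : ∃ a, so G v (g 1) * A (g 1) = a := ⟨_, rfl⟩
  obtain ⟨b, hb⟩ : ∃ b, so G v (g 0) * B (g 0) = b := ⟨_, rfl⟩
  obtain ⟨c, hc'⟩ : ∃ c, so G v (g 0) * C (g 0) = c := ⟨_, rfl⟩
  have hc1 : so G v (g 1) * C (g 1) = -1 - c := by linarith
  by_cases hab : a * b = 1
  · refine ⟨-1 - c - a * c, ?_, ?_⟩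
    · have hab' := hab
      rcases Int.eq_one_or_neg_one_of_mul_eq_one hab with h | h
      · rw [h]
        intro h'
        omega
      · rw [h]
        intro h'
        omega
    · intro o ho
      refine ⟨fun x => ((-1 - c) * o 0 - c * o 1) * A x + (o 1 - a * o 0) * C x,
        isFlow_add (isFlow_smul hA _) (isFlow_smul hC _), fin _ o ho _
          (isFlow_add (isFlow_smul hA _) (isFlow_smul hC _)) ?_ ?_⟩
      · have h1 : so G v (g 0) * (((-1 - c) * o 0 - c * o 1) * A (g 0) +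
            (o 1 - a * o 0) * C (g 0)) = ((-1 - c) * o 0 - c * o 1) * (so G v (g 0) * A (g 0)) +
            (o 1 - a * o 0) * (so G v (g 0) * C (g 0)) := by ring
        rw [h1, hA0, hc']
        ring
      · have h1 : so G v (g 1) * (((-1 - c) * o 0 - c * o 1) * A (g 1) +
            (o 1 - a * o 0) * C (g 1)) = ((-1 - c) * o 0 - c * o 1) * (so G v (g 1) * A (g 1)) +
            (o 1 - a * o 0) * (so G v (g 1) * C (g 1)) := by ring
        rw [h1, ha, hc1]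
        ring
  · refine ⟨1 - a * b, fun h => hab (by linarith), ?_⟩
    intro o ho
    refine ⟨fun x => (o 0 - b * o 1) * A x + (o 1 - a * o 0) * B x,
      isFlow_add (isFlow_smul hA _) (isFlow_smul hB _), fin _ o ho _
        (isFlow_add (isFlow_smul hA _) (isFlow_smul hB _)) ?_ ?_⟩
    · have h1 : so G v (g 0) * ((o 0 - b * o 1) * A (g 0) + (o 1 - a * o 0) * B (g 0)) =
          (o 0 - b * o 1) * (so G v (g 0) * A (g 0)) +
          (o 1 - a * o 0) * (so G v (g 0) * B (g 0)) := by ring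
      rw [h1, hA0, hb]
      ring
    · have h1 : so G v (g 1) * ((o 0 - b * o 1) * A (g 1) + (o 1 - a * o 0) * B (g 1)) =
          (o 0 - b * o 1) * (so G v (g 1) * A (g 1)) +
          (o 1 - a * o 0) * (so G v (g 1) * B (g 1)) := by ring
      rw [h1, ha, hB1]
      ring

lemma petersen_bridgeless : petersen.Bridgeless := by
  obtain ⟨π, h1, h2⟩ := petersen_nowhere_zero
  exact bridgeless_of_flow _ fun f => ⟨π, h1, h2 f⟩

theorem vsub_bridgeless (hG : G.Bridgeless) {g : Fin 3 → E} (hg : Function.Injective g)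
    (hc : G.cut {v} = univ.image g) (hp : ∀ i, p (g i) = i) : (vsub G v p).Bridgeless := by
  apply bridgeless_of_flow
  rintro ⟨w₀, y⟩
  obtain ⟨ψ, hψ, h1⟩ := exists_flow G hG y
  obtain ⟨D', hD', hS'⟩ := surj petersen_bridgeless (pp_inj w₀) (pet_cut w₀)
  obtain ⟨D, hD, hS⟩ := surj hG hg hc
  obtain ⟨π, hπ, h2⟩ := hS' (fun i => so G v (g i) * ψ (g i)) (by
    rw [← net_star hg hc]
    exact (isFlow_iff _ _).1 hψ v)
  have h3 : ∀ w, ∃ χ : E → ℤ, G.IsFlow χ ∧ ∀ i, so G v (g i) * χ (g i) =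
      D * (so petersen w (pp w i) * π (pp w i)) := fun w => hS _ (by
    rw [← net_star (pp_inj w) (pet_cut w)]
    exact (isFlow_iff _ _).1 hπ w)
  choose χ hχ h4 using h3
  have h5 := vflow_of (p := p) hg hc hp (ψ := fun w y => if w = w₀ then D * D' * ψ y else χ w y)
    (fun w => by
      by_cases hw : w = w₀
      · simp only [if_pos hw]
        exact isFlow_smul hψ _
      · simp only [if_neg hw]
        exact hχ w) (fun f => D * π f) (fun w i => by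
      by_cases hw : w = w₀
      · subst hw
        simp only [if_true]
        have h6 := h2 i
        have h7 : so G v (g i) * (D * D' * ψ (g i)) = D * (D' * (so G v (g i) * ψ (g i))) := by
          ring
        rw [h7, ← h6]
        ring
      · simp only [if_neg hw]
        rw [h4 w i]
        ring)
  refine ⟨_, h5, ?_⟩
  change (if w₀ = w₀ then D * D' * ψ y else χ w₀ y) ≠ 0
  rw [if_pos rfl, h1, mul_one]
  exact mul_ne_zero hD hD'

lemma num1 {y0 y1 y2 : ℤ} (h : y0 + y1 + y2 = 0) (h0 : 2 ≤ y0.natAbs) (h0' : y0.natAbs ≤ 3)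
    (h1 : y1.natAbs ≤ 3) (h2 : y2.natAbs ≤ 3) (h12 : y1.natAbs ≤ y2.natAbs) :
    (y0.natAbs, y1.natAbs, y2.natAbs) ∈ [(2, 1, 3), (2, 0, 2), (2, 1, 1), (3, 0, 3), (3, 1, 2)] := by
  simp only [List.mem_cons, List.not_mem_nil, or_false, Prod.mk.injEq]
  omega

lemma num2 {y0 y1 y2 z0 z1 z2 : ℤ} (h : y0 + y1 + y2 = 0) (h' : z0 + z1 + z2 = 0)
    (h0 : 2 ≤ y0.natAbs) (h0' : y0.natAbs ≤ 3) (h1 : y1.natAbs ≤ 3) (h2 : y2.natAbs ≤ 3)
    (e0 : z0.natAbs = y0.natAbs) (e1 : z1.natAbs = y1.natAbs) (e2 : z2.natAbs = y2.natAbs) :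
    (z0 = y0 ∧ z1 = y1 ∧ z2 = y2) ∨ (z0 = -y0 ∧ z1 = -y1 ∧ z2 = -y2) := by
  omega

lemma num3 {x1 x2 u1 u2 z0 z1 z2 : ℤ} (hx : x1 + x2 = 0) (hx1 : x1 ≠ 0) (bx1 : |x1| ≤ 1)
    (hu : u1 + u2 = 0) (bu1 : |u1| ≤ 1) (hz : z0 + z1 + z2 = 0) (h0 : 2 ≤ z0.natAbs)
    (h0' : z0.natAbs ≤ 3) (h1' : z1.natAbs ≤ 3) (h2' : z2.natAbs ≤ 3)
    (h1 : u1 = 0 → 2 ≤ z1.natAbs) (h2 : u2 = 0 → 2 ≤ z2.natAbs) :
    (u1 = x1 ∧ u2 = x2) ∨ (u1 = -x1 ∧ u2 = -x2) := by
  rw [abs_le] at bx1 bu1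
  have h3 : u1 ≠ 0 := by
    intro h3
    have h4 := h1 h3
    have h5 := h2 (by omega)
    omega
  omega

lemma adm_nat {a b : ℤ} (h : Adm a b) : b.natAbs ≤ 3 ∧ (a = 0 → 2 ≤ b.natAbs) := by
  obtain ⟨-, h2, h3⟩ := h
  rw [abs_le] at h2
  refine ⟨by omega, fun h => ?_⟩
  have h4 := h3 h
  rw [le_abs] at h4
  omega

lemma adm_so (G : OrGraph V E) (v : V) (e : E) {a b : ℤ} (h : Adm a b) :
    Adm (so G v e * a) (so G v e * b) := by
  unfold so
  split_ifs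
  · rw [one_mul, one_mul]
    exact h
  · rw [neg_one_mul, neg_one_mul]
    exact adm_neg h

lemma natAbs_so (G : OrGraph V E) (v : V) (e : E) (a : ℤ) : (so G v e * a).natAbs = a.natAbs := by
  unfold so
  split_ifs <;> simp

lemma sum_arr {σ : Fin 3 → Fin 3} (hσ : Function.Injective σ) (o : Fin 3 → ℤ) :
    o (σ 0) + o (σ 1) + o (σ 2) = ∑ i, o i := by
  rw [← Fin.sum_univ_three (fun i => o (σ i))]
  exact (Finite.injective_iff_bijective.1 hσ).sum_comp o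

lemma arrange {x y : Fin 3 → ℤ} (hadm : ∀ i, Adm (x i) (y i)) (hx : ∑ i, x i = 0)
    (hy : ∑ i, y i = 0) :
    ∃ τ : Fin 3 → Fin 3, Function.Injective τ ∧ x (τ 0) = 0 ∧ x (τ 1) ≠ 0 ∧
      (y (τ 1)).natAbs ≤ (y (τ 2)).natAbs := by
  rw [Fin.sum_univ_three] at hx hy
  obtain ⟨p0, p0', p0''⟩ := hadm 0
  obtain ⟨p1, p1', p1''⟩ := hadm 1
  obtain ⟨p2, p2', p2''⟩ := hadm 2
  have key : (x 0 = 0 ∧ x 1 ≠ 0 ∧ x 2 ≠ 0) ∨ (x 0 ≠ 0 ∧ x 1 = 0 ∧ x 2 ≠ 0) ∨
      (x 0 ≠ 0 ∧ x 1 ≠ 0 ∧ x 2 = 0) := by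
    rw [abs_le] at p0 p0' p1 p1' p2 p2'
    rw [le_abs] at p0'' p1'' p2''
    omega
  rcases key with ⟨h0, h1, h2⟩ | ⟨h0, h1, h2⟩ | ⟨h0, h1, h2⟩
  · rcases le_total (y 1).natAbs (y 2).natAbs with h | h
    · exact ⟨![0, 1, 2], by decide, h0, h1, h⟩
    · exact ⟨![0, 2, 1], by decide, h0, h2, h⟩
  · rcases le_total (y 0).natAbs (y 2).natAbs with h | h
    · exact ⟨![1, 0, 2], by decide, h1, h0, h⟩
    · exact ⟨![1, 2, 0], by decide, h1, h2, h⟩
  · rcases le_total (y 0).natAbs (y 1).natAbs with h | h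
    · exact ⟨![2, 0, 1], by decide, h2, h0, h⟩
    · exact ⟨![2, 1, 0], by decide, h2, h1, h⟩

lemma pair_sign {a b : E → ℤ} (h : G.IsHalfFlowPair a b) {ε δ : ℤ} (hε : ε = 1 ∨ ε = -1)
    (hδ : δ = 1 ∨ δ = -1) : G.IsHalfFlowPair (fun x => ε * a x) (fun x => δ * b x) := by
  rcases hε with rfl | rfl <;> rcases hδ with rfl | rfl
  · simpa only [one_mul] using h
  · simpa only [one_mul, neg_one_mul] using pair_neg₄ h
  · simpa only [one_mul, neg_one_mul] using pair_neg₂ h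
  · simpa only [neg_one_mul] using pair_neg₄ (pair_neg₂ h)

/-- if the composed graph has a `1/2`-flow-pair, then all admissible triples of values with sum
zero are outflows at `v`, in some order -/
theorem vprescribe {g : Fin 3 → E} (hg : Function.Injective g) (hc : G.cut {v} = univ.image g)
    (hp : ∀ i, p (g i) = i) {α β : Fin 10 × E → ℤ} (h : (vsub G v p).IsHalfFlowPair α β)
    (x y : Fin 3 → ℤ) (hadm : ∀ i, Adm (x i) (y i)) (hx : ∑ i, x i = 0) (hy : ∑ i, y i = 0) :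
    ∃ (σ : Equiv.Perm (Fin 3)) (φ₂ φ₄ : E → ℤ), G.IsHalfFlowPair φ₂ φ₄ ∧
      ∀ i, so G v (g (σ i)) * φ₂ (g (σ i)) = x i ∧ so G v (g (σ i)) * φ₄ (g (σ i)) = y i := by
  rw [pair_iff] at h
  obtain ⟨hα, hβ, hadm'⟩ := h
  obtain ⟨a1, π₂, a2, a3, a4⟩ := vflow hg hc hp hα
  obtain ⟨b1, π₄, b2, b3, b4⟩ := vflow hg hc hp hβ
  have hP : petersen.IsHalfFlowPair π₂ π₄ := by
    rw [pair_iff]
    refine ⟨a3, b3, fun f => ?_⟩
    rw [a2, b2]
    exact adm_so _ _ _ (hadm' _)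
  obtain ⟨τ, hτ, t0, t1, t3⟩ := arrange hadm hx hy
  have sx := sum_arr hτ x
  have sy := sum_arr hτ y
  rw [hx] at sx
  rw [hy] at sy
  have y0 : 2 ≤ (y (τ 0)).natAbs := (adm_nat (hadm (τ 0))).2 t0
  have hk := num1 sy y0 (adm_nat (hadm (τ 0))).1 (adm_nat (hadm (τ 1))).1
    (adm_nat (hadm (τ 2))).1 t3
  obtain ⟨w, σ', hσ', s0, s1, s2, s3⟩ := petersen_verts hP _ _ _ hk
  obtain ⟨u, hu⟩ : ∃ u : Fin 3 → ℤ, ∀ i, u i = so G v (g i) * α (w, g i) := ⟨_, fun i => rfl⟩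
  obtain ⟨z, hz⟩ : ∃ z : Fin 3 → ℤ, ∀ i, z i = so G v (g i) * β (w, g i) := ⟨_, fun i => rfl⟩
  have au : ∀ i, Adm (u i) (z i) := fun i => by
    rw [hu, hz]
    exact adm_so _ _ _ (hadm' _)
  have su : u (σ' 0) + u (σ' 1) + u (σ' 2) = 0 := by
    rw [sum_arr hσ' u, Finset.sum_congr rfl fun i _ => hu i, ← net_star hg hc (fun y => α (w, y))]
    exact (isFlow_iff _ _).1 (a1 w) v
  have sz : z (σ' 0) + z (σ' 1) + z (σ' 2) = 0 := by
    rw [sum_arr hσ' z, Finset.sum_congr rfl fun i _ => hz i, ← net_star hg hc (fun y => β (w, y))]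
    exact (isFlow_iff _ _).1 (b1 w) v
  have u0 : u (σ' 0) = 0 := by
    rw [hu, ← a4, s0, mul_zero]
  have zn : ∀ i, (z i).natAbs = (π₄ (pp w i)).natAbs := by
    intro i
    rw [hz, ← b4, natAbs_so]
  have z0 : (z (σ' 0)).natAbs = (y (τ 0)).natAbs := by rw [zn, s1]
  have z1 : (z (σ' 1)).natAbs = (y (τ 1)).natAbs := by rw [zn, s2]
  have z2 : (z (σ' 2)).natAbs = (y (τ 2)).natAbs := by rw [zn, s3]
  have hz' := num2 sy sz y0 (adm_nat (hadm (τ 0))).1 (adm_nat (hadm (τ 1))).1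
    (adm_nat (hadm (τ 2))).1 z0 z1 z2
  have hu' := num3 (x1 := x (τ 1)) (x2 := x (τ 2)) (u1 := u (σ' 1)) (u2 := u (σ' 2))
    (by linarith) t1 (hadm (τ 1)).1 (by linarith) (au (σ' 1)).1 sz (by omega)
    (adm_nat (au (σ' 0))).1 (adm_nat (au (σ' 1))).1 (adm_nat (au (σ' 2))).1
    (adm_nat (au (σ' 1))).2 (adm_nat (au (σ' 2))).2
  obtain ⟨ε, hε, hεu⟩ : ∃ ε : ℤ, (ε = 1 ∨ ε = -1) ∧ ∀ j, ε * u (σ' j) = x (τ j) := by
    rcases hu' with ⟨h1, h2⟩ | ⟨h1, h2⟩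
    · refine ⟨1, Or.inl rfl, fun j => ?_⟩
      rw [one_mul]
      fin_cases j
      · exact u0.trans t0.symm
      · exact h1
      · exact h2
    · refine ⟨-1, Or.inr rfl, fun j => ?_⟩
      rw [neg_one_mul]
      fin_cases j
      · change -u (σ' 0) = x (τ 0)
        rw [u0, t0, neg_zero]
      · change -u (σ' 1) = x (τ 1)
        rw [h1, neg_neg]
      · change -u (σ' 2) = x (τ 2)
        rw [h2, neg_neg]
  obtain ⟨δ, hδ, hδz⟩ : ∃ δ : ℤ, (δ = 1 ∨ δ = -1) ∧ ∀ j, δ * z (σ' j) = y (τ j) := by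
    rcases hz' with ⟨h0, h1, h2⟩ | ⟨h0, h1, h2⟩
    · refine ⟨1, Or.inl rfl, fun j => ?_⟩
      rw [one_mul]
      fin_cases j
      · exact h0
      · exact h1
      · exact h2
    · refine ⟨-1, Or.inr rfl, fun j => ?_⟩
      rw [neg_one_mul]
      fin_cases j
      · change -z (σ' 0) = y (τ 0)
        rw [h0, neg_neg]
      · change -z (σ' 1) = y (τ 1)
        rw [h1, neg_neg]
      · change -z (σ' 2) = y (τ 2)
        rw [h2, neg_neg]
  have hpair : G.IsHalfFlowPair (fun y => α (w, y)) (fun y => β (w, y)) :=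
    pair_iff.2 ⟨a1 w, b1 w, fun e => hadm' _⟩
  obtain ⟨T, hT⟩ : ∃ T : Equiv.Perm (Fin 3), ∀ i, T i = τ i :=
    ⟨Equiv.ofBijective τ (Finite.injective_iff_bijective.1 hτ), fun i => rfl⟩
  obtain ⟨S, hS⟩ : ∃ S : Equiv.Perm (Fin 3), ∀ i, S i = σ' i :=
    ⟨Equiv.ofBijective σ' (Finite.injective_iff_bijective.1 hσ'), fun i => rfl⟩
  refine ⟨T.symm.trans S, _, _, pair_sign hpair hε hδ, fun i => ?_⟩
  have h1 : τ (T.symm i) = i := by rw [← hT, Equiv.apply_symm_apply]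
  have h2 := hεu (T.symm i)
  have h3 := hδz (T.symm i)
  rw [h1, hu] at h2
  rw [h1, hz] at h3
  have h4 : (T.symm.trans S) i = σ' (T.symm i) := hS _
  rw [h4]
  constructor
  · rw [← h2]
    ring
  · rw [← h3]
    ring

end Pool.Agent.TH60.HE
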